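import Pool.Agent.H55.PC.LvlCell
import Pool.Agent.H92.PC.Theta

/-!
# Frames at all windows, steep mesh intervals, good cells

From `Lvl` and the class numbers: the structure `Frs`, the frames of two times at all windows
outside few residues, the frames of two times in the good cells, and the classification of the
cells for the mesh `i / n`.
-/

set_option autoImplicit false

namespace Pool.PC

open Finset Real
open Pool.Agent.H49.Ent Pool.Agent.H32.Dense Pool.STK Pool.KA Pool.KSAT Pool.K2S Pool.LK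
open Pool.UEG

variable {J : ℕ}

section

variable {F : Fam 2 J} {c : Nm} {n k : ℕ} {h cap δ : ℝ} {B : ℕ → Bx F}

theorem vpc_eq (c : Nm) (cap h : ℝ) (n J w : ℕ) : vpc c cap h n J w =
    ⌊(min (c.rot ((mix 0 (1 / (n : ℝ)) J w : ℕ) / n)) cap - 2 * h) * J⌋₊ := by
  unfold vpc mvp mdi
  rw [mpt]

theorem vpc_mono {w w' : ℕ} (hrm : Monotone c.rot) (hn : 1 ≤ n) (hw : w ≤ w') :
    vpc c cap h n J w ≤ vpc c cap h n J w' :=
  mvp_mono (fun _ _ hy => min_le_min_right cap (hrm hy)) (mshe hn) hw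

theorem vpc_le (hc : c.Ok δ) (hh : 0 ≤ h) (w : ℕ) : (vpc c cap h n J w : ℝ) ≤ (c.n - c.q) * J := by
  have h1 := hc.r1 ((mix 0 (1 / (n : ℝ)) J w : ℕ) / n)
  have h0 : 0 ≤ (c.n - c.q) * J := mul_nonneg (sub_nonneg.2 hc.qn) (Nat.cast_nonneg J)
  rw [vpc_eq]
  rcases le_total 0 ((min (c.rot ((mix 0 (1 / (n : ℝ)) J w : ℕ) / n)) cap - 2 * h) * J) with h2 | h2
  · refine (Nat.floor_le h2).trans (mul_le_mul_of_nonneg_right ?_ (Nat.cast_nonneg J))
    have := min_le_left (c.rot ((mix 0 (1 / (n : ℝ)) J w : ℕ) / n)) cap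
    linarith
  · rw [Nat.floor_of_nonpos h2]
    exact_mod_cast h0

theorem vpc_J (hc : c.Ok δ) (hh : 0 ≤ h) (w : ℕ) : vpc c cap h n J w ≤ J := by
  have h1 := vpc_le (J := J) (n := n) (cap := cap) hc hh w
  have h2 : (c.n - c.q) * J ≤ 1 * J := by
    refine mul_le_mul_of_nonneg_right ?_ (Nat.cast_nonneg J)
    linarith [hc.n1, hc.q0]
  have h3 : (vpc c cap h n J w : ℝ) ≤ J := by linarith
  exact_mod_cast h3

/-- **The frames at all windows.** -/
theorem Lev.frs {B : Bx F} {a : ℕ → F.Ω → ℝ} {l : ℕ → ℕ} (hL : Lev F F.p B.a l 0 J a)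
    (hl : ∀ w, l w ≤ J) : Frs F B.i0 0 J l (fun w => zv B.i0 (a w)) (zv B.i0 B.a) 2 where
  wJ := le_rfl
  mono := hL.mono
  vJ := fun w _ _ => hl w
  grid := fun w _ _ => hL.zgrid B.i0 w
  z0 := fun w _ _ => zv_i0 B.i0 (a w)
  det := fun w h0 h1 => hL.zcl B.i0 h0 h1 F.p
  near := fun w h0 h1 ω hω j hj => by
    rw [zv_ne hj B.a]
    exact hL.znear h0 h1 hω hj

/-- **The frames of two times** at a window of a good cell, in the form of the rectangle
theorems. -/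
theorem lvl_cellw (hL : Lvl F c n h B k) (hn : 1 ≤ n) (hJ : n ≤ J) (hh : 0 < h) (hh1 : h < 1)
    (hr0 : ∀ w, 0 ≤ c.rot w) {a : ℕ → F.Ω → ℝ}
    (hLev : Lev F F.p (B k).a (vpc c cap h n J) 0 J a) {ε₁ ϖ : ℝ} (hϖ : 0 < ϖ) (hε₁ : 0 < ε₁)
    (hc : h ≤ ε₁ * ϖ) {d x₀ x₁ γ C cR Cq : ℝ} {N X tt i D : ℕ} (hi : (i + 1) * N ≤ n)
    (hok : CellOk (fun y => min (c.rot y) cap) 0 d (1 / (n : ℝ)) (2 * h) (h + 2 / J) x₀ x₁ γ C cR
      Cq N J X tt i) {w : ℕ} (hw0 : msh J n (i * N) ≤ w) (hw1 : w ≤ msh J n ((i + 1) * N))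
    (hcap : c.rot ((mup 0 (1 / (n : ℝ)) J w : ℕ) / n) ≤ cap)
    (hr : c.rot ((mup 0 (1 / (n : ℝ)) J w : ℕ) / n) < c.n - c.q)
    (hD : vpc c cap h n J w + x₁ * X + 1 ≤ D) (E : F.Ω → Prop) (hE : ϖ ≤ Pe F.p E) :
    Pool.KAF.Pr (dbl (Pool.Agent.H49.Ent.cond F.p E True) (slam F w))
      {v | |sl2 (vpc c cap h n J w) D (a w) (B k).a v.2 -
        sl2 (vpc c cap h n J w) D (a w) (B k).a v.1| < (2 : ℝ) ^ (-(x₁ * X))} ≤ ε₁ := by
  have hn0 : (0 : ℝ) < n := by exact_mod_cast hn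
  have hJ0 : (0 : ℝ) < J := by
    have h1 : (1 : ℝ) ≤ n := by exact_mod_cast hn
    have h2 : (n : ℝ) ≤ J := by exact_mod_cast hJ
    linarith
  have hmx : min x₀ x₁ * X ≤ x₁ * X :=
    mul_le_mul_of_nonneg_right (min_le_right _ _) (Nat.cast_nonneg X)
  have g0 : mwi 0 (1 / (n : ℝ)) J (i * N) ≤ w := by rw [mwi_msh]; exact hw0
  have g1 : w ≤ mwi 0 (1 / (n : ℝ)) J ((i + 1) * N) := by rw [mwi_msh]; exact hw1
  have hst := mwi_strict (x := 0) (J := J) le_rfl (mshe hn) (mshJ hn hJ)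
  have g00 : mwi 0 (1 / (n : ℝ)) J 0 ≤ w := by rw [mwi_0]; exact Nat.zero_le _
  have m0 : i * N ≤ mix 0 (1 / (n : ℝ)) J w := le_mix le_rfl (mshe hn) (mshJ hn hJ) g0
  have m1 := mup_le le_rfl (mshe hn) (mshJ hn hJ) g00 g1
  have hwm := le_mwi_mup (x := 0) le_rfl (mshe hn) (mshJ hn hJ) w
  have hwJ : w ≤ J := by
    refine hwm.trans (mwi_J (mle (mshe hn) (msh1 hn) (m1.trans hi)))
  have hv : (min (c.rot ((mix 0 (1 / (n : ℝ)) J w : ℕ) / n)) cap - 2 * h) * J <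
      (vpc c cap h n J w : ℝ) + 1 := by
    rw [vpc_eq]
    exact Nat.lt_floor_add_one _
  -- the increase from the mesh point below to the mesh point above
  have hinc : (c.rot ((mup 0 (1 / (n : ℝ)) J w : ℕ) / n) -
      min (c.rot ((mix 0 (1 / (n : ℝ)) J w : ℕ) / n)) cap + 2 * h + (h + 2 / J)) * J + 2 ≤
      x₁ * X := by
    by_cases hu : w = mwi 0 (1 / (n : ℝ)) J (mix 0 (1 / (n : ℝ)) J w)
    · have e1 : mup 0 (1 / (n : ℝ)) J w = mix 0 (1 / (n : ℝ)) J w := by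
        unfold mup
        rw [if_pos hu]
      rw [e1] at hcap ⊢
      rw [min_eq_left hcap, sub_self, zero_add]
      exact hok.one.trans hmx
    · have e1 : mup 0 (1 / (n : ℝ)) J w = mix 0 (1 / (n : ℝ)) J w + 1 := by
        unfold mup
        rw [if_neg hu]
      rw [e1] at hcap m1 ⊢
      have h1 := hok.inn (mix 0 (1 / (n : ℝ)) J w) m0 (by omega)
      rw [mpt, mpt, min_eq_left hcap] at h1
      exact h1.trans hmx
  have e3 : (c.rot ((mup 0 (1 / (n : ℝ)) J w : ℕ) / n) -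
      min (c.rot ((mix 0 (1 / (n : ℝ)) J w : ℕ) / n)) cap + 2 * h + (h + 2 / J)) * J =
      (c.rot ((mup 0 (1 / (n : ℝ)) J w : ℕ) / n) + h) * J -
      (min (c.rot ((mix 0 (1 / (n : ℝ)) J w : ℕ) / n)) cap - 2 * h) * J + 2 := by
    field_simp
    ring
  refine hLev.sl2 F.isLaw (y := vpc c cap h n J w + x₁ * X - 1) (hϖ.trans_le hE) ?_
    (Nat.zero_le _) hwJ (by linarith) hD
  refine lvl_th hL hn hh hh1 hr0 hϖ hε₁ hc (m1.trans hi) hr ?_ ?_ E hE
  · rw [← mwi_msh]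
    exact hwm
  · linarith

end

/-! ### Steep mesh intervals -/

/-- The number of steep mesh intervals. -/
theorem steep_card {r : ℝ → ℝ} (hr : Monotone r) {n t : ℕ} (ht : t ≤ n) (hn : 1 ≤ n)
    {s V : ℝ} (hV : r 1 - r 0 ≤ V) :
    (((range t).filter fun j => s < r ((j + 1 : ℕ) / n) - r (j / n)).card : ℝ) * s ≤ V := by
  have hn0 : (0 : ℝ) < n := by exact_mod_cast hn
  have h1 := Finset.card_nsmul_le_sum
    ((range t).filter fun j : ℕ => s < r ((j + 1 : ℕ) / n) - r (j / n))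
    (fun j : ℕ => r ((j + 1 : ℕ) / n) - r (j / n)) s (fun j hj => (mem_filter.1 hj).2.le)
  rw [nsmul_eq_mul] at h1
  refine h1.trans ?_
  refine (Finset.sum_le_sum_of_subset_of_nonneg (filter_subset _ _) fun j _ _ => ?_).trans ?_
  · refine sub_nonneg.2 (hr (div_le_div_of_nonneg_right ?_ hn0.le))
    push_cast
    linarith
  · rw [Finset.sum_range_sub (fun j : ℕ => r (j / n))]
    have h2 : r ((t : ℕ) / n) ≤ r 1 := by
      refine hr ?_
      rw [div_le_one hn0]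
      exact_mod_cast ht
    have h3 : r 0 ≤ r ((0 : ℕ) / n) := by simp
    linarith

/-- The residues of the windows of a mesh interval. -/
theorem res_card {n J X j : ℕ} (hn : 1 ≤ n) :
    ((((Finset.Ico (msh J n j) (msh J n (j + 1))).image fun w => w % X).card : ℕ) : ℝ) ≤
      J / n + 1 := by
  have h1 : ((Finset.Ico (msh J n j) (msh J n (j + 1))).image fun w => w % X).card ≤
      msh J n (j + 1) - msh J n j := by
    refine Finset.card_image_le.trans (le_of_eq ?_)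
    rw [Nat.card_Ico]
  have h2 : ((msh J n (j + 1) - msh J n j : ℕ) : ℝ) ≤ J / n + 1 := by
    have hle : msh J n j ≤ msh J n (j + 1) := by
      unfold msh
      refine Nat.floor_le_floor (mul_le_mul_of_nonneg_right
        (div_le_div_of_nonneg_right ?_ (Nat.cast_nonneg n)) (Nat.cast_nonneg J))
      push_cast
      linarith
    rw [Nat.cast_sub hle]
    have h3 : (msh J n (j + 1) : ℝ) ≤ ((j + 1 : ℕ) : ℝ) / n * J :=
      Nat.floor_le (by positivity)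
    have h4 : (j : ℝ) / n * J < (msh J n j : ℝ) + 1 := Nat.lt_floor_add_one _
    have e : ((j + 1 : ℕ) : ℝ) / n * J = (j : ℝ) / n * J + J / n := by
      push_cast
      ring
    linarith
  exact le_trans (by exact_mod_cast h1) h2

section steep

variable {F : Fam 2 J} {c : Nm} {n k : ℕ} {h cap δ : ℝ} {B : ℕ → Bx F}

/-- **Steep mesh intervals.** Outside at most half of the residues, the frames of two times of the
windows below the target are different at the precision `vp w + x`. -/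
theorem steep (hL : Lvl F c n h B k) (hc : c.Ok δ) (hn : 1 ≤ n) (hJ : n ≤ J) (hh : 0 < h)
    (hh1 : h < 1) {t : ℕ} (hcap : ∀ i < t, c.rot (i / n) < cap) (hcn : cap ≤ c.n - c.q)
    {x X : ℕ} (hx : 3 * h * J + 4 ≤ (x : ℝ) / 2) (hX0 : 0 < X)
    (hs : 2 * ((2 * (J : ℝ) / x + 1) * (J / n + 1)) ≤ X) {p₁ : ℝ} (hp : h ≤ p₁) :
    ∃ Sb : Finset ℕ, Sb ⊆ Finset.range X ∧ 2 * Sb.card ≤ X ∧ ∀ w, w ≤ J → w < msh J n t →
      w % X ∉ Sb → Pe (dbl F.p (slam F w)) (fun u => ∀ j, j ≠ (B k).i0 →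
        |zv (B k).i0 (B k).a u.1 j - zv (B k).i0 (B k).a u.2 j| ≤
          2 / 2 ^ (vpc c cap h n J w + x)) ≤ p₁ := by
  classical
  have hn0 : (0 : ℝ) < n := by exact_mod_cast hn
  have hJ0 : (0 : ℝ) < J := by
    have h1 : (1 : ℝ) ≤ n := by exact_mod_cast hn
    have h2 : (n : ℝ) ≤ J := by exact_mod_cast hJ
    linarith
  have hx0 : (0 : ℝ) < x := by
    have : 0 < h * J := mul_pos hh hJ0
    linarith
  obtain ⟨s, hsE⟩ : ∃ s : ℝ, s = x / (2 * J) := ⟨_, rfl⟩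
  have hs0 : 0 < s := by rw [hsE]; positivity
  obtain ⟨t', ht'⟩ : ∃ t', t' = min t n := ⟨_, rfl⟩
  obtain ⟨St, hSt⟩ : ∃ St : Finset ℕ, St = insert (t - 1) ((range t').filter fun j =>
    s < c.rot ((j + 1 : ℕ) / n) - c.rot (j / n)) := ⟨_, rfl⟩
  have hStc : (St.card : ℝ) ≤ 2 * (J : ℝ) / x + 1 := by
    have h1 := steep_card (t := t') hc.rm (by rw [ht']; exact min_le_right _ _) hn (s := s) (V := 1) (by
      have h1 := hc.r1 1
      have h2 := hc.r0 0
      linarith [hc.n1, hc.q0])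
    have h2 : (((range t').filter fun j =>
        s < c.rot ((j + 1 : ℕ) / n) - c.rot (j / n)).card : ℝ) ≤ 1 / s := by
      rw [le_div_iff₀ hs0]
      exact h1
    have h3 : (1 : ℝ) / s = 2 * J / x := by
      rw [hsE]
      field_simp
    have h4 : (St.card : ℝ) ≤ (((range t').filter fun j =>
        s < c.rot ((j + 1 : ℕ) / n) - c.rot (j / n)).card : ℝ) + 1 := by
      rw [hSt]
      exact_mod_cast Finset.card_insert_le _ _
    linarith
  refine ⟨(St.biUnion fun j => (Finset.Ico (msh J n j) (msh J n (j + 1))).image fun w => w % X),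
    ?_, ?_, ?_⟩
  · intro y hy
    obtain ⟨j, -, hj⟩ := Finset.mem_biUnion.1 hy
    obtain ⟨w, -, rfl⟩ := Finset.mem_image.1 hj
    exact Finset.mem_range.2 (Nat.mod_lt _ hX0)
  · have h1 : ((St.biUnion fun j => (Finset.Ico (msh J n j) (msh J n (j + 1))).image
        fun w => w % X).card : ℝ) ≤ St.card * ((J : ℝ) / n + 1) := by
      have h0 : (St.biUnion fun j => (Finset.Ico (msh J n j) (msh J n (j + 1))).image
          fun w => w % X).card ≤ ∑ j ∈ St, ((Finset.Ico (msh J n j) (msh J n (j + 1))).image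
          fun w => w % X).card := Finset.card_biUnion_le
      have h0' : ((St.biUnion fun j => (Finset.Ico (msh J n j) (msh J n (j + 1))).image
          fun w => w % X).card : ℝ) ≤ ∑ j ∈ St, ((((Finset.Ico (msh J n j)
          (msh J n (j + 1))).image fun w => w % X).card : ℕ) : ℝ) := by exact_mod_cast h0
      refine h0'.trans ((Finset.sum_le_card_nsmul _ _ _ fun j _ => res_card hn).trans
        (le_of_eq ?_))
      rw [nsmul_eq_mul]
    have h2 : (0 : ℝ) ≤ J / n + 1 := by positivity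
    have h3 := mul_le_mul_of_nonneg_right hStc h2
    have h4 : (2 * ((St.biUnion fun j => (Finset.Ico (msh J n j) (msh J n (j + 1))).image
        fun w => w % X).card : ℕ) : ℝ) ≤ X := by
      linarith
    exact_mod_cast h4
  · intro w hw hwt hwS
    have g00 : mwi 0 (1 / (n : ℝ)) J 0 ≤ w := by rw [mwi_0]; exact Nat.zero_le _
    have a0 := mwi_mix le_rfl (mshe hn) (mshJ hn hJ) g00
    have a1 := lt_mwi_mix (x := 0) (w := w) le_rfl (mshe hn) (mshJ hn hJ)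
    rw [mwi_msh] at a0 a1
    have hmt : mix 0 (1 / (n : ℝ)) J w < t := by
      by_contra hcon
      have h1 : mwi 0 (1 / (n : ℝ)) J t ≤ mwi 0 (1 / (n : ℝ)) J (mix 0 (1 / (n : ℝ)) J w) :=
        (mwi_strict (x := 0) le_rfl (mshe hn) (mshJ hn hJ)).monotone (not_lt.1 hcon)
      rw [mwi_msh, mwi_msh] at h1
      omega
    have hnS : mix 0 (1 / (n : ℝ)) J w ∉ St := by
      intro hmem
      refine hwS (Finset.mem_biUnion.2 ⟨_, hmem, Finset.mem_image.2 ⟨w, ?_, rfl⟩⟩)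
      exact Finset.mem_Ico.2 ⟨a0, a1⟩
    rw [hSt, Finset.mem_insert, not_or] at hnS
    obtain ⟨n1, n2⟩ := hnS
    have hmt1 : mix 0 (1 / (n : ℝ)) J w + 1 < t := by omega
    have hmn : mix 0 (1 / (n : ℝ)) J w ≤ n := by
      have h1 := mup_le le_rfl (mshe hn) (mshJ hn hJ) g00 (show w ≤ mwi 0 (1 / (n : ℝ)) J n by
        rw [mwi_n hn]; exact hw)
      have h2 : mix 0 (1 / (n : ℝ)) J w ≤ mup 0 (1 / (n : ℝ)) J w := by
        unfold mup
        split_ifs <;> omega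
      omega
    have hcm := hcap _ hmt
    -- the increase
    obtain ⟨hu1, hu2⟩ : c.rot ((mup 0 (1 / (n : ℝ)) J w : ℕ) / n) < cap ∧
        c.rot ((mup 0 (1 / (n : ℝ)) J w : ℕ) / n) -
          c.rot ((mix 0 (1 / (n : ℝ)) J w : ℕ) / n) ≤ s := by
      by_cases hu : w = mwi 0 (1 / (n : ℝ)) J (mix 0 (1 / (n : ℝ)) J w)
      · have e1 : mup 0 (1 / (n : ℝ)) J w = mix 0 (1 / (n : ℝ)) J w := by
          unfold mup
          rw [if_pos hu]
        rw [e1, sub_self]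
        exact ⟨hcm, hs0.le⟩
      · have e1 : mup 0 (1 / (n : ℝ)) J w = mix 0 (1 / (n : ℝ)) J w + 1 := by
          unfold mup
          rw [if_neg hu]
        have hlt : mix 0 (1 / (n : ℝ)) J w < n := by
          have h1 := mup_le le_rfl (mshe hn) (mshJ hn hJ) g00
            (show w ≤ mwi 0 (1 / (n : ℝ)) J n by rw [mwi_n hn]; exact hw)
          omega
        rw [e1]
        refine ⟨hcap _ hmt1, ?_⟩
        by_contra hcon
        refine n2 (mem_filter.2 ⟨Finset.mem_range.2 ?_, not_le.1 hcon⟩)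
        rw [ht']
        exact lt_min (by omega) hlt
    have hkey := lvl_pair0 (B := B) (k := k) hL hn hJ hh hh1 hc.r0 cap (lt_of_lt_of_le hh hp) hp hw
      (lt_of_lt_of_le hu1 hcn) (X := x) (by
        rw [min_eq_left hcm.le]
        have h1 : (c.rot ((mup 0 (1 / (n : ℝ)) J w : ℕ) / n) -
            c.rot ((mix 0 (1 / (n : ℝ)) J w : ℕ) / n) + 3 * h) * J ≤ (s + 3 * h) * J :=
          mul_le_mul_of_nonneg_right (by linarith) hJ0.le
        have h2 : s * J = x / 2 := by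
          rw [hsE]
          field_simp
        linarith)
    refine le_trans (Pe_mono ?_ ?_) hkey
    · refine ⟨fun u => glue_nonneg F.isLaw.nonneg F.isLaw.nonneg u, ?_⟩
      unfold dbl
      rw [sum_glue F.isLaw.nonneg (fun _ => rfl), F.isLaw.sum_one]
    · intro u hu
      have h1 := hu (oth (B k).i0) (oth_ne (B k).i0)
      rwa [zv_ne (oth_ne (B k).i0), zv_ne (oth_ne (B k).i0)] at h1

end steep

/-! ### The classification of the cells for the class numbers -/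

/-- **The classification of the cells**, for the mesh `i / n`. -/
theorem level_nm {x₀ x₁ γ ρ C cR : ℝ} (hx₀ : 0 < x₀) (hx₁ : 0 < x₁) (hγ : 0 < γ) (hγ1 : γ ≤ 1)
    (hρ : 0 < ρ) (hC : 1 ≤ C) (hcR : 0 ≤ cR) : ∃ κ Cq : ℝ, 0 < κ ∧ κ ≤ 1 ∧ 0 < Cq ∧
    ∀ (c : Nm) (δ : ℝ), c.Ok δ → ∀ cap : ℝ, 0 ≤ cap → ∀ d' : ℝ, 0 < d' →
    ∃ M : ℕ, 0 < M ∧ 1 / (M : ℝ) ≤ d' ∧ ∃ Bad : Finset ℕ, Bad ⊆ range M ∧
      (Bad.card : ℝ) / M ≤ ρ ∧ ∃ n₀ : ℕ, 1 ≤ n₀ ∧ ∀ n : ℕ, 1 ≤ n → n₀ ∣ n →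
      ∃ N : ℕ, 0 < N ∧ n = M * N ∧ ∃ h₀ : ℝ, 0 < h₀ ∧ ∀ h : ℝ, 0 < h → h ≤ h₀ →
        ∃ J₀ : ℕ, ∀ J : ℕ, J₀ ≤ J → n ≤ J ∧ 1 ≤ h * J ∧ ∀ X : ℕ,
          κ / 2 * (1 / M * J) ≤ X → X ≤ κ * (1 / M * J) → ∃ tt : ℕ, ∀ i < M, i ∉ Bad →
            CellOk (fun y => min (c.rot y) cap) 0 (1 / M) (1 / (n : ℝ)) (2 * h) (h + 2 / J)
              x₀ x₁ γ C cR Cq N J X tt i := by
  obtain ⟨κ, Cq, hκ, hκ1, hCq, key⟩ := level hx₀ hx₁ hγ hγ1 hρ hC hcR
  refine ⟨κ, Cq, hκ, hκ1, hCq, ?_⟩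
  intro c δ hc cap hcap d' hd'
  obtain ⟨M, hM, hMd, Bad, hBad, hBc, N₀, hN₀, key⟩ := key (fun y => min (c.rot y) cap)
    (fun _ _ hy => min_le_min_right cap (hc.rm hy)) 0 1 le_rfl one_pos
    (le_min (hc.r0 0) hcap) ((min_le_left _ _).trans (by
      have := hc.r1 1
      linarith [hc.n1, hc.q0])) d' hd'
  rw [sub_zero] at hMd hBc
  refine ⟨M, hM, hMd, Bad, hBad, by rw [← mul_one_div]; exact hBc, M * N₀, by
    exact Nat.mul_pos hM hN₀, ?_⟩
  intro n hn hdvd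
  obtain ⟨m, hm⟩ := hdvd
  have hm0 : 0 < m := by
    rcases Nat.eq_zero_or_pos m with h | h
    · rw [h, mul_zero] at hm
      omega
    · exact h
  refine ⟨N₀ * m, Nat.mul_pos hN₀ hm0, by rw [hm, mul_assoc], ?_⟩
  have hMr : (0 : ℝ) < M := by exact_mod_cast hM
  have hNr : (0 : ℝ) < (N₀ * m : ℕ) := by exact_mod_cast Nat.mul_pos hN₀ hm0
  obtain ⟨τ₀, hτ₀, J₀, key⟩ := key (N₀ * m) (Nat.le_mul_of_pos_right _ hm0) (1 / M) (1 / n)
    (by rw [sub_zero]) (by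
      rw [hm]
      push_cast
      field_simp)
  refine ⟨τ₀ / 2, half_pos hτ₀, ?_⟩
  intro h hh hhτ
  obtain ⟨J₁, hJ₁⟩ := exists_nat_gt (1 / h + 4 / τ₀)
  refine ⟨max J₀ (max n J₁), ?_⟩
  intro J hJ
  have hJ0 := (le_max_left _ _).trans hJ
  have hJn : n ≤ J := (le_max_left _ _).trans ((le_max_right _ _).trans hJ)
  have hJJ₁ : J₁ ≤ J := (le_max_right _ _).trans ((le_max_right _ _).trans hJ)
  have hJr : (J₁ : ℝ) ≤ J := by exact_mod_cast hJJ₁
  have p1 : 0 < 1 / h := by positivity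
  have p2 : 0 < 4 / τ₀ := by positivity
  have hJp : (0 : ℝ) < J := by linarith
  have hhJ : 1 ≤ h * J := by
    have h1 : 1 / h ≤ J := by linarith
    rw [div_le_iff₀ hh] at h1
    linarith
  have h2J : 2 / (J : ℝ) ≤ τ₀ / 2 := by
    have h1 : 4 / τ₀ ≤ J := by linarith
    rw [div_le_iff₀ hτ₀] at h1
    rw [div_le_iff₀ hJp]
    linarith
  obtain ⟨-, key⟩ := key J hJ0
  refine ⟨hJn, hhJ, fun X hX1 hX2 => ?_⟩
  exact key (2 * h) (h + 2 / J) (by linarith) (by linarith) (by linarith) X hX1 hX2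

end Pool.PC
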