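import Pool.Agent.H55.PC.Steep
import Pool.Agent.H83.PC.Rate

/-!
# The classification of the cells, with the rate of the level
-/

set_option autoImplicit false

namespace Pool.PC

open Finset Real
open Pool.Agent.H49.Ent Pool.Agent.H32.Dense Pool.STK Pool.KA Pool.KSAT Pool.K2S Pool.LK
open Pool.UEG

/-- **The classification of the cells**, for the mesh `i / n`, with the rate of the level. -/
theorem level_nmr {x₀ x₁ γ ρ C cR : ℝ} (hx₀ : 0 < x₀) (hx₀1 : x₀ ≤ 1) (hx₁ : 0 < x₁) (hγ : 0 < γ)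
    (hγ1 : γ ≤ 1) (hρ : 0 < ρ) (hC : 1 ≤ C) (hcR : 0 ≤ cR) : ∃ κ Cq : ℝ, 0 < κ ∧ κ ≤ 1 ∧ 0 < Cq ∧
    ∀ (c : Nm) (δ : ℝ), c.Ok δ → ∀ cap : ℝ, 0 ≤ cap → ∀ d' : ℝ, 0 < d' →
    ∃ M : ℕ, 0 < M ∧ 1 / (M : ℝ) ≤ d' ∧ ∃ Bad : Finset ℕ, Bad ⊆ range M ∧
      (Bad.card : ℝ) / M ≤ ρ ∧ ∃ n₀ : ℕ, 1 ≤ n₀ ∧ ∀ n : ℕ, 1 ≤ n → n₀ ∣ n →
      ∃ N : ℕ, 0 < N ∧ n = M * N ∧ ∃ h₀ : ℝ, 0 < h₀ ∧ ∀ h : ℝ, 0 < h → h ≤ h₀ →
        ∃ J₀ : ℕ, ∀ J : ℕ, J₀ ≤ J → n ≤ J ∧ 1 ≤ h * J ∧ ∀ X : ℕ,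
          κ / 2 * (1 / M * J) ≤ X → X ≤ κ * (1 / M * J) → ∃ tt : ℕ, ∀ i < M, i ∉ Bad →
            CellOk (fun y => min (c.rot y) cap) 0 (1 / M) (1 / (n : ℝ)) (2 * h) (h + 2 / J)
              x₀ x₁ γ C cR Cq N J X tt i ∧
            ∀ V : ℕ, 2 / ρ + 3 ≤ V → ∀ w, msh J n (i * N) ≤ w → w + X ≤ msh J n ((i + 1) * N) →
              vpc c cap h n J (w + X) ≤ vpc c cap h n J w + V * X := by
  obtain ⟨κ, Cq, hκ, hκ1, hCq, key⟩ := level_rate hx₀ hx₀1 hx₁ hγ hγ1 hρ hC hcR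
  refine ⟨κ, Cq, hκ, hκ1, hCq, ?_⟩
  intro c δ hc cap hcap d' hd'
  obtain ⟨M, hM, hMd, Bad, hBad, hBc, N₀, hN₀, key⟩ := key (fun y => min (c.rot y) cap)
    (fun _ _ hy => min_le_min_right cap (hc.rm hy)) 0 1 le_rfl one_pos
    (le_min (hc.r0 0) hcap) ((min_le_left _ _).trans (by
      have := hc.r1 1
      linarith [hc.n1, hc.q0])) d' hd'
  rw [sub_zero] at hMd hBc
  refine ⟨M, hM, hMd, Bad, hBad, by rw [← mul_one_div]; exact hBc, M * N₀, by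
    exact Nat.mul_pos hM hN₀, ?_⟩
  intro n hn hdvd
  obtain ⟨m, hm⟩ := hdvd
  have hm0 : 0 < m := by
    rcases Nat.eq_zero_or_pos m with h | h
    · rw [h, mul_zero] at hm
      omega
    · exact h
  refine ⟨N₀ * m, Nat.mul_pos hN₀ hm0, by rw [hm, mul_assoc], ?_⟩
  have hMr : (0 : ℝ) < M := by exact_mod_cast hM
  have hNr : (0 : ℝ) < (N₀ * m : ℕ) := by exact_mod_cast Nat.mul_pos hN₀ hm0
  obtain ⟨τ₀, hτ₀, J₀, key⟩ := key (N₀ * m) (Nat.le_mul_of_pos_right _ hm0) (1 / M) (1 / n)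
    (by rw [sub_zero]) (by
      rw [hm]
      push_cast
      field_simp)
  refine ⟨τ₀ / 2, half_pos hτ₀, ?_⟩
  intro h hh hhτ
  obtain ⟨J₁, hJ₁⟩ := exists_nat_gt (1 / h + 4 / τ₀)
  refine ⟨max J₀ (max n J₁), ?_⟩
  intro J hJ
  have hJ0 := (le_max_left _ _).trans hJ
  have hJn : n ≤ J := (le_max_left _ _).trans ((le_max_right _ _).trans hJ)
  have hJJ₁ : J₁ ≤ J := (le_max_right _ _).trans ((le_max_right _ _).trans hJ)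
  have hJr : (J₁ : ℝ) ≤ J := by exact_mod_cast hJJ₁
  have p1 : 0 < 1 / h := by positivity
  have p2 : 0 < 4 / τ₀ := by positivity
  have hJp : (0 : ℝ) < J := by linarith
  have hhJ : 1 ≤ h * J := by
    have h1 : 1 / h ≤ J := by linarith
    rw [div_le_iff₀ hh] at h1
    linarith
  have h2J : 2 / (J : ℝ) ≤ τ₀ / 2 := by
    have h1 : 4 / τ₀ ≤ J := by linarith
    rw [div_le_iff₀ hτ₀] at h1
    rw [div_le_iff₀ hJp]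
    linarith
  obtain ⟨-, key⟩ := key J hJ0
  refine ⟨hJn, hhJ, fun X hX1 hX2 => ?_⟩
  obtain ⟨tt, key⟩ := key (2 * h) (h + 2 / J) (by linarith) (by linarith) (by linarith) X hX1 hX2
  refine ⟨tt, fun i hi hB => ?_⟩
  obtain ⟨k1, k2⟩ := key i hi hB
  refine ⟨k1, fun V hV w h0 h1 => ?_⟩
  rw [← mwi_msh] at h0 h1
  exact k2 V hV w h0 h1

end Pool.PC
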