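import Pool.Agent.H83.UEG.TwoV
import Pool.Agent.H87.PC.TH
import Pool.Agent.H92.PC.Mesh
import Pool.Agent.H18.PB.Defs

/-!
# The frames on the cells

The input of the rectangle theorems: the slope of the window `w` is the slope known from the inner
mesh point below `w`, rounded to the grid. The inner mesh is `x + i e`, `i ≤ N`, for the whole
interval of windows, so there is one slope `a w` for all cells; a cell is `[x + i₀ e, x + i₁ e]`.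
-/

set_option autoImplicit false

namespace Pool.PC

open Finset Real
open Pool.Agent.H49.Ent Pool.Agent.H32.Dense Pool.STK Pool.KA Pool.KSAT Pool.K2S
open Pool.UEG

variable {J : ℕ}

/-- On the event `A` (and the support of `p`) the slope `b` is known from the window `W` up to
`e`. -/
def Kn (F : Fam 2 J) (p : F.Ω → ℝ) (A : F.Ω → Prop) (b : F.Ω → ℝ) (W : ℕ) (e : ℝ) : Prop :=
  ∃ φ : (((Fin 2 → ℝ) × (Fin 2 → ℝ)) × F.ζ × ℕ) → ℝ,
    ∀ ω, A ω → 0 < p ω → |b ω - φ (slam F W ω)| ≤ e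

/-- The window of the mesh point. -/
noncomputable def mwi (x e : ℝ) (J i : ℕ) : ℕ := ⌊(x + i * e) * J⌋₊

/-- The last mesh point whose window is at most `w`. -/
noncomputable def mix (x e : ℝ) (J w : ℕ) : ℕ := ⌈(((w : ℝ) + 1) / J - x) / e⌉₊ - 1

/-- The number of digits at the mesh point. -/
noncomputable def mdi (r : ℝ → ℝ) (x e τ : ℝ) (J i : ℕ) : ℕ := ⌊(r (x + i * e) - τ) * J⌋₊

/-- The number of digits in the window `w`. -/
noncomputable def mvp (r : ℝ → ℝ) (x e τ : ℝ) (J w : ℕ) : ℕ := mdi r x e τ J (mix x e J w)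

/-! ### The mesh -/

section mesh

variable {x e : ℝ} {i j w : ℕ}

theorem mJ_pos (_he : 0 < e) (hJ : 1 ≤ e * J) : (0 : ℝ) < J := by
  by_contra h
  have h1 : (J : ℝ) = 0 := le_antisymm (not_lt.1 h) (Nat.cast_nonneg J)
  rw [h1, mul_zero] at hJ
  linarith only [hJ]

theorem mwi_nonneg (hx : 0 ≤ x) (he : 0 < e) : 0 ≤ (x + i * e) * J := by positivity

theorem mwi_le (hx : 0 ≤ x) (he : 0 < e) : (mwi x e J i : ℝ) ≤ (x + i * e) * J :=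
  Nat.floor_le (mwi_nonneg hx he)

theorem lt_mwi : (x + i * e) * J < (mwi x e J i : ℝ) + 1 := Nat.lt_floor_add_one _

theorem le_mix (_hx : 0 ≤ x) (he : 0 < e) (hJ : 1 ≤ e * J) (h : mwi x e J i ≤ w) :
    i ≤ mix x e J w := by
  have hJ0 := mJ_pos he hJ
  have h1 : (x + i * e) * J < (w : ℝ) + 1 := by
    have h2 : (mwi x e J i : ℝ) ≤ w := by exact_mod_cast h
    have h3 : (x + i * e) * J < (mwi x e J i : ℝ) + 1 := lt_mwi
    linarith only [h2, h3]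
  have h2 : (i : ℝ) < (((w : ℝ) + 1) / J - x) / e := by
    rw [lt_div_iff₀ he, lt_sub_iff_add_lt, lt_div_iff₀ hJ0]
    linarith only [h1]
  have h3 := Nat.lt_ceil.2 h2
  unfold mix
  omega

theorem mwi_mix (hx : 0 ≤ x) (he : 0 < e) (hJ : 1 ≤ e * J) (h : mwi x e J 0 ≤ w) :
    mwi x e J (mix x e J w) ≤ w := by
  have hJ0 := mJ_pos he hJ
  have h1 : (x + (0 : ℕ) * e) * J < (w : ℝ) + 1 := by
    have h2 : (mwi x e J 0 : ℝ) ≤ w := by exact_mod_cast h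
    have h3 : (x + (0 : ℕ) * e) * J < (mwi x e J 0 : ℝ) + 1 := lt_mwi
    linarith only [h2, h3]
  have h2 : ((0 : ℕ) : ℝ) < (((w : ℝ) + 1) / J - x) / e := by
    rw [lt_div_iff₀ he, lt_sub_iff_add_lt, lt_div_iff₀ hJ0]
    linarith only [h1]
  have h3 := Nat.lt_ceil.2 h2
  have h4 : mix x e J w < ⌈(((w : ℝ) + 1) / J - x) / e⌉₊ := by
    unfold mix
    omega
  have h5 := Nat.lt_ceil.1 h4
  rw [lt_div_iff₀ he, lt_sub_iff_add_lt, lt_div_iff₀ hJ0] at h5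
  have h6 : mwi x e J (mix x e J w) < w + 1 := by
    unfold mwi
    rw [Nat.floor_lt (mwi_nonneg hx he)]
    push_cast
    linarith only [h5]
  omega

theorem lt_mwi_mix (hx : 0 ≤ x) (he : 0 < e) (hJ : 1 ≤ e * J) :
    w < mwi x e J (mix x e J w + 1) := by
  by_contra h
  have h1 := le_mix hx he hJ (not_lt.1 h)
  omega

theorem mwi_strict (hx : 0 ≤ x) (he : 0 < e) (hJ : 1 ≤ e * J) : StrictMono (mwi x e J) := by
  refine strictMono_nat_of_lt_succ fun n => ?_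
  have h1 : ⌊(x + n * e) * J + 1⌋₊ = ⌊(x + n * e) * J⌋₊ + 1 := Nat.floor_add_one
    (mwi_nonneg hx he)
  have h2 : ⌊(x + n * e) * J + 1⌋₊ ≤ ⌊(x + (n + 1 : ℕ) * e) * J⌋₊ := by
    refine Nat.floor_le_floor ?_
    push_cast
    nlinarith only [hJ]
  unfold mwi
  omega

theorem mix_mwi (hx : 0 ≤ x) (he : 0 < e) (hJ : 1 ≤ e * J) : mix x e J (mwi x e J i) = i := by
  refine le_antisymm ?_ (le_mix hx he hJ le_rfl)
  exact (mwi_strict hx he hJ).le_iff_le.1 (mwi_mix hx he hJ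
    ((mwi_strict hx he hJ).monotone (Nat.zero_le i)))

theorem mix_mono {w' : ℕ} (he : 0 < e) (h : w ≤ w') : mix x e J w ≤ mix x e J w' := by
  have h1 : (w : ℝ) ≤ w' := by exact_mod_cast h
  have h2 : (((w : ℝ) + 1) / J - x) / e ≤ (((w' : ℝ) + 1) / J - x) / e := by
    refine div_le_div_of_nonneg_right (sub_le_sub_right ?_ _) he.le
    exact div_le_div_of_nonneg_right (by linarith only [h1]) (Nat.cast_nonneg J)
  have h3 := Nat.ceil_mono h2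
  unfold mix
  omega

theorem mwi_J (hx1 : x + i * e ≤ 1) : mwi x e J i ≤ J := by
  refine Nat.floor_le_of_le ?_
  calc (x + i * e) * J ≤ 1 * J := mul_le_mul_of_nonneg_right hx1 (Nat.cast_nonneg J)
    _ = J := one_mul _

theorem mle {N : ℕ} (he : 0 < e) (hx1 : x + N * e ≤ 1) (hi : i ≤ N) : x + i * e ≤ 1 := by
  have h1 : (i : ℝ) ≤ N := by exact_mod_cast hi
  have h2 : (i : ℝ) * e ≤ N * e := mul_le_mul_of_nonneg_right h1 he.le
  linarith only [hx1, h2]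

theorem mdi_mono {r : ℝ → ℝ} (hr : Monotone r) {τ : ℝ} (he : 0 < e) (h : i ≤ j) :
    mdi r x e τ J i ≤ mdi r x e τ J j := by
  have h1 : (i : ℝ) ≤ j := by exact_mod_cast h
  have h2 : (i : ℝ) * e ≤ j * e := mul_le_mul_of_nonneg_right h1 he.le
  refine Nat.floor_le_floor (mul_le_mul_of_nonneg_right ?_ (Nat.cast_nonneg J))
  have := hr (show x + i * e ≤ x + j * e by linarith)
  linarith only [this]

theorem mvp_mono {r : ℝ → ℝ} (hr : Monotone r) {τ : ℝ} {w' : ℕ} (he : 0 < e) (h : w ≤ w') :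
    mvp r x e τ J w ≤ mvp r x e τ J w' := mdi_mono hr he (mix_mono he h)

end mesh

/-- Rounding a number in `[-1, 1]`. -/
theorem rnd_le_one (k : ℕ) {y : ℝ} (hy : |y| ≤ 1) : |((⌊(2 : ℝ) ^ k * y⌋ : ℤ) : ℝ) / 2 ^ k| ≤ 1 := by
  have h2 : (0 : ℝ) < 2 ^ k := by positivity
  have hy' := abs_le.1 hy
  rw [abs_div, abs_of_pos h2, div_le_one h2, abs_le]
  constructor
  · have h3 : (-(2 ^ k : ℤ) : ℤ) ≤ ⌊(2 : ℝ) ^ k * y⌋ := by
      rw [Int.le_floor]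
      push_cast
      nlinarith only [h2, hy']
    have h4 : ((-(2 ^ k : ℤ) : ℤ) : ℝ) ≤ (⌊(2 : ℝ) ^ k * y⌋ : ℤ) := by exact_mod_cast h3
    push_cast at h4
    exact h4
  · have := Int.floor_le ((2 : ℝ) ^ k * y)
    nlinarith only [this, h2, hy']

/-- Clamping to `[-1, 1]`. -/
theorem clamp_near {y z : ℝ} (hy : |y| ≤ 1) : |max (-1) (min 1 z)| ≤ 1 ∧
    |y - max (-1) (min 1 z)| ≤ |y - z| := by
  have hy' := abs_le.1 hy
  rcases le_total 1 z with h | h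
  · rw [min_eq_left h, max_eq_right (by norm_num)]
    refine ⟨by simp, ?_⟩
    rw [abs_sub_comm, abs_of_nonneg (by linarith : (0 : ℝ) ≤ 1 - y), abs_sub_comm,
      abs_of_nonneg (by linarith : (0 : ℝ) ≤ z - y)]
    linarith
  · rw [min_eq_right h]
    rcases le_total z (-1) with h' | h'
    · rw [max_eq_left h']
      refine ⟨by simp, ?_⟩
      rw [abs_of_nonneg (by linarith : (0 : ℝ) ≤ y - -1), abs_of_nonneg (by linarith :
        (0 : ℝ) ≤ y - z)]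
      linarith
    · rw [max_eq_right h']
      exact ⟨abs_le.2 ⟨h', h⟩, le_rfl⟩

/-- **The level data.** On the windows of `[W₀, W₁]` the slope `al` is known from the window `w`
up to `2 / 2 ^ l w`: it is `a w`, a multiple of `1 / 2 ^ l w`. -/
structure Lev (F : Fam 2 J) (p : F.Ω → ℝ) (al : F.Ω → ℝ) (l : ℕ → ℕ) (W₀ W₁ : ℕ)
    (a : ℕ → F.Ω → ℝ) : Prop where
  bd : ∀ w ω, |a w ω| ≤ 1
  grid : ∀ w ω, ∃ n : ℤ, a w ω = n / 2 ^ l w
  cl : ∀ w, W₀ ≤ w → w ≤ W₁ → ∃ ψ : (((Fin 2 → ℝ) × (Fin 2 → ℝ)) × F.ζ × ℕ) → ℝ,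
    ∀ ω, a w ω = ψ (slam F w ω)
  near : ∀ w, W₀ ≤ w → w ≤ W₁ → ∀ ω, 0 < p ω → |al ω - a w ω| ≤ 2 / 2 ^ l w
  mono : ∀ w w', W₀ ≤ w → w ≤ w' → w' ≤ W₁ → l w ≤ l w'

/-- **The frames on the cells.** -/
theorem cell_lev {F : Fam 2 J} {p : F.Ω → ℝ} {al : F.Ω → ℝ} (hal : ∀ ω, 0 < p ω → |al ω| ≤ 1)
    {r : ℝ → ℝ} (hr : Monotone r) {x e τ : ℝ} {N : ℕ}
    (hx : 0 ≤ x) (he : 0 < e) (hx1 : x + N * e ≤ 1) (hJ : 1 ≤ e * J)
    (hcl : ∀ i ≤ N, Kn F p (fun _ => True) al (mwi x e J i) (1 / 2 ^ mdi r x e τ J i)) :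
    ∃ a : ℕ → F.Ω → ℝ, Lev F p al (mvp r x e τ J) (mwi x e J 0) (mwi x e J N) a := by
  have hc : ∀ i, ∃ φ : (((Fin 2 → ℝ) × (Fin 2 → ℝ)) × F.ζ × ℕ) → ℝ, (∀ s, |φ s| ≤ 1) ∧
      (i ≤ N → ∀ ω, 0 < p ω → |al ω - φ (slam F (mwi x e J i) ω)| ≤ 1 / 2 ^ mdi r x e τ J i) := by
    intro i
    by_cases hi : i ≤ N
    · obtain ⟨φ, hφ⟩ := hcl i hi
      refine ⟨fun s => max (-1) (min 1 (φ s)), fun s => ?_, fun _ ω hω => ?_⟩
      · exact (clamp_near (y := 0) (by simp)).1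
      · exact (clamp_near (hal ω hω)).2.trans (hφ ω trivial hω)
    · exact ⟨fun _ => 0, fun _ => by simp, fun h => absurd h hi⟩
  choose φ hφ1 hφ2 using hc
  have hst := mwi_strict hx he hJ
  refine ⟨fun w ω => ((⌊(2 : ℝ) ^ mvp r x e τ J w *
    φ (mix x e J w) (slam F (mwi x e J (mix x e J w)) ω)⌋ : ℤ) : ℝ) / 2 ^ mvp r x e τ J w,
    fun w ω => rnd_le_one _ (hφ1 _ _), fun w ω => ⟨_, rfl⟩, ?_, ?_,
    fun w w' _ h _ => mvp_mono hr he h⟩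
  · intro w h1 h2
    have hm := mwi_mix hx he hJ h1
    have hwJ : w ≤ J := h2.trans (mwi_J hx1)
    refine ⟨fun s => ((⌊(2 : ℝ) ^ mvp r x e τ J w * φ (mix x e J w)
      (s.1, s.2.1, s.2.2 / 2 ^ (w - mwi x e J (mix x e J w)))⌋ : ℤ) : ℝ) / 2 ^ mvp r x e τ J w,
      fun ω => ?_⟩
    simp only
    rw [Pool.PB.slam_coarse F hm hwJ]
  · intro w h1 h2 ω hω
    have hiN : mix x e J w ≤ N := by
      have := mix_mono (x := x) (J := J) he h2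
      rwa [mix_mwi hx he hJ] at this
    have k1 := hφ2 (mix x e J w) hiN ω hω
    have k2 := rnd_near (mvp r x e τ J w) (φ (mix x e J w)
      (slam F (mwi x e J (mix x e J w)) ω))
    change |al ω - φ (mix x e J w) (slam F (mwi x e J (mix x e J w)) ω)| ≤
      1 / 2 ^ mvp r x e τ J w at k1
    have e4 : (2 : ℝ) / 2 ^ mvp r x e τ J w = 1 / 2 ^ mvp r x e τ J w + 1 / 2 ^ mvp r x e τ J w := by
      ring
    rw [e4]
    rw [abs_sub_comm] at k2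
    have k3 := abs_sub_le (al ω) (φ (mix x e J w) (slam F (mwi x e J (mix x e J w)) ω))
      (((⌊(2 : ℝ) ^ mvp r x e τ J w *
        φ (mix x e J w) (slam F (mwi x e J (mix x e J w)) ω)⌋ : ℤ) : ℝ) / 2 ^ mvp r x e τ J w)
    linarith only [k2, k1, k3]

/-- The level data on a part of the windows, in the form of the rectangle theorems. -/
theorem Lev.rc2 {F : Fam 2 J} {p : F.Ω → ℝ} (hp : IsLaw p) {σ : Fin 2 → Fin 2}
    (hσ : Function.Injective σ) {al : F.Ω → ℝ} {l : ℕ → ℕ} {W₀ W₁ : ℕ} {a : ℕ → F.Ω → ℝ}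
    (h : Lev F p al l W₀ W₁ a) {w₀ w₁ D : ℕ} (h0 : W₀ ≤ w₀) (h1 : w₁ ≤ W₁) (hJ : w₁ ≤ J)
    (hD : l w₁ ≤ D) : Rc2 F p σ w₀ w₁ l D a al := by
  refine ⟨hp, hσ, hJ, fun w w' k1 k2 k3 => h.mono w w' (h0.trans k1) k2 (k3.trans h1), ?_, ?_, ?_,
    ?_⟩
  · intro w k1 k2
    exact (h.mono w w₁ (h0.trans k1) k2 h1).trans hD
  · intro w k1 k2 ω hω
    refine (h.near w (h0.trans k1) (k2.trans h1) ω hω).trans ?_
    exact div_le_div_of_nonneg_right (by norm_num) (by positivity)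
  · intro w _ _ ω _
    exact h.grid w ω
  · intro w k1 k2 ω ω' _ _ hs
    obtain ⟨ψ, hψ⟩ := h.cl w (h0.trans k1) (k2.trans h1)
    rw [hψ, hψ, hs]

/-! ### Frames of two times -/

theorem Kn.mono {F : Fam 2 J} {p : F.Ω → ℝ} {A : F.Ω → Prop} {b : F.Ω → ℝ} {W : ℕ} {e e' : ℝ}
    (h : Kn F p A b W e) (he : e ≤ e') : Kn F p A b W e' := by
  obtain ⟨φ, hφ⟩ := h
  exact ⟨φ, fun ω h1 h2 => (hφ ω h1 h2).trans he⟩

theorem Kn.finer {F : Fam 2 J} {p : F.Ω → ℝ} {A : F.Ω → Prop} {b : F.Ω → ℝ} {W W' : ℕ} {e : ℝ}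
    (h : Kn F p A b W e) (hW : W ≤ W') (hJ : W' ≤ J) : Kn F p A b W' e := by
  obtain ⟨φ, hφ⟩ := h
  refine ⟨fun s => φ (s.1, s.2.1, s.2.2 / 2 ^ (W' - W)), fun ω h1 h2 => ?_⟩
  have := hφ ω h1 h2
  rwa [Pool.PB.slam_coarse F hW hJ] at this

/-- Rounded numbers which are near each other. -/
theorem near_of_rnd {D : ℕ} {x y ρ : ℝ} (h : |((⌊(2 : ℝ) ^ D * x⌋ : ℤ) : ℝ) / 2 ^ D -
    ((⌊(2 : ℝ) ^ D * y⌋ : ℤ) : ℝ) / 2 ^ D| ≤ ρ) : |x - y| ≤ ρ + 2 / 2 ^ D := by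
  have h1 := rnd_near D x
  have h2 := rnd_near D y
  have e2 : (2 : ℝ) / 2 ^ D = 1 / 2 ^ D + 1 / 2 ^ D := by ring
  rw [e2]
  have k := abs_le.1 h
  have k1 := abs_le.1 h1
  have k2 := abs_le.1 h2
  rw [abs_le]
  constructor <;> linarith only [k, k1, k2]

/-- A window with related frames of two times has a label. -/
theorem kn_of_pair {F : Fam 2 J} {p : F.Ω → ℝ} (hp : IsLaw p) {al : F.Ω → ℝ} {w : ℕ}
    {E : F.Ω → Prop} {ϖ ε₁ ρ : ℝ} (hϖ : 0 < ϖ) (hε₁ : 0 < ε₁) (hE : ϖ ≤ Pe p E)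
    (h : ε₁ < Pe (dbl (Pool.Agent.H49.Ent.cond p E True) (slam F w))
      (fun v => |al v.1 - al v.2| ≤ ρ)) :
    ∃ B : F.Ω → Prop, Sub B E ∧ ε₁ * ϖ ≤ Pe p B ∧ Kn F p B al w ρ := by
  have hE0 : 0 < Pe p E := hϖ.trans_le hE
  have hq := isLaw_cond hp hE0
  obtain ⟨φ, -, h2⟩ := th_ev hq (slam F w) al (fun x y => |x - y| ≤ ρ)
  refine ⟨fun ω => E ω ∧ |φ (slam F w ω) - al ω| ≤ ρ, fun ω h => h.1, ?_, φ, ?_⟩
  · have h3 := h.le.trans h2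
    rw [Pe_cond, le_div_iff₀ hE0] at h3
    exact (mul_le_mul_of_nonneg_left hE hε₁.le).trans h3
  · intro ω hω _
    rw [abs_sub_comm]
    exact hω.2

/-- **The slopes of two times.** The window `w` is below the mesh point `i'`. -/
theorem th_al {F : Fam 2 J} {p : F.Ω → ℝ} (hp : IsLaw p) {al : F.Ω → ℝ} {w W : ℕ} {g y : ℝ}
    {ε₁ ϖ c : ℝ} (hϖ : 0 < ϖ) (hε₁ : 0 < ε₁) (hc : c ≤ ε₁ * ϖ)
    (hno : ∀ B : F.Ω → Prop, c ≤ Pe p B → ¬ Kn F p B al W (2 ^ (-g)))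
    (hw : w ≤ W) (hW : W ≤ J) (hy : g ≤ y) (E : F.Ω → Prop) (hE : ϖ ≤ Pe p E) :
    Pe (dbl (Pool.Agent.H49.Ent.cond p E True) (slam F w))
      (fun u => |al u.1 - al u.2| ≤ 2 ^ (-y)) ≤ ε₁ := by
  by_contra hcon
  rw [not_le] at hcon
  obtain ⟨B, -, hB2, hB3⟩ := kn_of_pair hp hϖ hε₁ hE hcon
  refine hno B (hc.trans hB2) ((hB3.finer hw hW).mono ?_)
  exact Real.rpow_le_rpow_of_exponent_le one_le_two (by linarith only [hy])

/-- The slopes of two times, for the level data at another window. -/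
theorem Lev.th {F : Fam 2 J} {p : F.Ω → ℝ} (hp : IsLaw p) {al : F.Ω → ℝ} {l : ℕ → ℕ}
    {W₀ W₁ : ℕ} {a : ℕ → F.Ω → ℝ} (h : Lev F p al l W₀ W₁ a) {w w' k : ℕ} {y ε₁ : ℝ}
    {E : F.Ω → Prop} (hE : 0 < Pe p E)
    (hth : Pe (dbl (Pool.Agent.H49.Ent.cond p E True) (slam F w))
      (fun u => |al u.1 - al u.2| ≤ 2 ^ (-y)) ≤ ε₁)
    (h0 : W₀ ≤ w') (h1 : w' ≤ W₁) (hk : y + 1 ≤ k) (hl : k + 2 ≤ l w') :
    Pe (dbl (Pool.Agent.H49.Ent.cond p E True) (slam F w))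
      (fun u => |a w' u.1 - a w' u.2| ≤ 1 / 2 ^ k) ≤ ε₁ := by
  have hq := isLaw_cond hp hE
  refine le_trans ?_ hth
  change Pool.KAF.Pr _ {u : F.Ω × F.Ω | |a w' u.1 - a w' u.2| ≤ 1 / 2 ^ k} ≤
    Pool.KAF.Pr _ {u : F.Ω × F.Ω | |al u.1 - al u.2| ≤ 2 ^ (-y)}
  refine Uni.Pr_le_of (fun u => glue_nonneg hq.nonneg hq.nonneg u) fun u hu hS => ?_
  obtain ⟨g1, g2, -⟩ := (glue_pos_iff hq.nonneg hq.nonneg u).1 hu
  have p1 := ((cond_pos_iff hp.nonneg E True _).1 g1).1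
  have p2 := ((cond_pos_iff hp.nonneg E True _).1 g2).1
  have n1 := abs_le.1 (h.near w' h0 h1 u.1 p1)
  have n2 := abs_le.1 (h.near w' h0 h1 u.2 p2)
  have hS' : |a w' u.1 - a w' u.2| ≤ 1 / 2 ^ k := hS
  have n3 := abs_le.1 hS'
  have e1 : (4 : ℝ) / 2 ^ l w' ≤ 1 / 2 ^ k := by
    rw [div_le_div_iff₀ (by positivity) (by positivity), one_mul]
    calc (4 : ℝ) * 2 ^ k = 2 ^ (k + 2) := by rw [pow_add]; ring
      _ ≤ 2 ^ l w' := pow_le_pow_right₀ one_le_two hl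
  have e2 : (2 : ℝ) / 2 ^ k ≤ 2 ^ (-y) := by
    have e3 : (2 : ℝ) / 2 ^ k = 2 ^ (1 - (k : ℝ)) := by
      rw [Real.rpow_sub two_pos, Real.rpow_one, Real.rpow_natCast]
    rw [e3]
    exact Real.rpow_le_rpow_of_exponent_le one_le_two (by linarith only [hk])
  have e4 : (4 : ℝ) / 2 ^ l w' = 2 / 2 ^ l w' + 2 / 2 ^ l w' := by ring
  have e5 : (2 : ℝ) / 2 ^ k = 1 / 2 ^ k + 1 / 2 ^ k := by ring
  show |al u.1 - al u.2| ≤ 2 ^ (-y)
  refine le_trans ?_ e2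
  rw [abs_le]
  constructor <;> linarith only [n1, n2, n3, e1, e4, e5]

/-- **The frames of two times**, in the form of the rectangle theorems. -/
theorem Lev.sl2 {F : Fam 2 J} {p : F.Ω → ℝ} (hp : IsLaw p) {al : F.Ω → ℝ} {l : ℕ → ℕ}
    {W₀ W₁ : ℕ} {a : ℕ → F.Ω → ℝ} (h : Lev F p al l W₀ W₁ a) {w D : ℕ} {y xX ε₁ : ℝ}
    {E : F.Ω → Prop} (hE : 0 < Pe p E)
    (hth : Pe (dbl (Pool.Agent.H49.Ent.cond p E True) (slam F w))
      (fun u => |al u.1 - al u.2| ≤ 2 ^ (-y)) ≤ ε₁)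
    (h0 : W₀ ≤ w) (h1 : w ≤ W₁) (hy : y + 1 ≤ l w + xX) (hD : l w + xX + 1 ≤ D) :
    Pool.KAF.Pr (dbl (Pool.Agent.H49.Ent.cond p E True) (slam F w))
        {v | |sl2 (l w) D (a w) al v.2 - sl2 (l w) D (a w) al v.1| < (2 : ℝ) ^ (-xX)} ≤ ε₁ := by
  have hq := isLaw_cond hp hE
  refine le_trans ?_ hth
  change Pool.KAF.Pr _ _ ≤ Pool.KAF.Pr _ {u : F.Ω × F.Ω | |al u.1 - al u.2| ≤ 2 ^ (-y)}
  refine Uni.Pr_le_of (fun u => glue_nonneg hq.nonneg hq.nonneg u) fun u hu hS => ?_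
  obtain ⟨g1, g2, g3⟩ := (glue_pos_iff hq.nonneg hq.nonneg u).1 hu
  obtain ⟨ψ, hψ⟩ := h.cl w h0 h1
  have ha : a w u.1 = a w u.2 := by rw [hψ, hψ, g3]
  obtain ⟨v, hv⟩ : ∃ v, v = l w := ⟨_, rfl⟩
  change |(2 : ℝ) ^ l w * (((⌊(2 : ℝ) ^ D * al u.2⌋ : ℤ) : ℝ) / 2 ^ D - a w u.2) -
    (2 : ℝ) ^ l w * (((⌊(2 : ℝ) ^ D * al u.1⌋ : ℤ) : ℝ) / 2 ^ D - a w u.1)| <
    (2 : ℝ) ^ (-xX) at hS
  rw [ha, ← hv] at hS
  rw [← hv] at hD hy
  have e1 : (2 : ℝ) ^ v * (((⌊(2 : ℝ) ^ D * al u.2⌋ : ℤ) : ℝ) / 2 ^ D - a w u.2) -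
    (2 : ℝ) ^ v * (((⌊(2 : ℝ) ^ D * al u.1⌋ : ℤ) : ℝ) / 2 ^ D - a w u.2) =
    2 ^ v * (((⌊(2 : ℝ) ^ D * al u.2⌋ : ℤ) : ℝ) / 2 ^ D -
      ((⌊(2 : ℝ) ^ D * al u.1⌋ : ℤ) : ℝ) / 2 ^ D) := by ring
  have h2v : (0 : ℝ) < 2 ^ v := by positivity
  rw [e1, abs_mul, abs_of_pos h2v, ← lt_div_iff₀' h2v, abs_sub_comm] at hS
  have e2 : (2 : ℝ) ^ (-xX) / 2 ^ v = 2 ^ (-(v + xX)) := by
    rw [neg_add, Real.rpow_add two_pos, Real.rpow_neg two_pos.le (v : ℝ), Real.rpow_natCast]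
    field_simp
  rw [e2] at hS
  have h4 := near_of_rnd hS.le
  have h5 : (2 : ℝ) / 2 ^ D ≤ 2 ^ (-(v + xX)) := by
    have e3 : (2 : ℝ) / 2 ^ D = 2 ^ (1 - (D : ℝ)) := by
      rw [Real.rpow_sub two_pos, Real.rpow_one, Real.rpow_natCast]
    rw [e3]
    exact Real.rpow_le_rpow_of_exponent_le one_le_two (by linarith only [hD])
  have h6 : (2 : ℝ) ^ (-(v + xX)) + 2 ^ (-(v + xX)) ≤ 2 ^ (-y) := by
    have e3 : (2 : ℝ) ^ (-(v + xX)) + 2 ^ (-(v + xX)) = 2 ^ (1 + -(v + xX)) := by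
      rw [Real.rpow_add two_pos, Real.rpow_one]
      ring
    rw [e3]
    exact Real.rpow_le_rpow_of_exponent_le one_le_two (by linarith only [hy])
  show |al u.1 - al u.2| ≤ 2 ^ (-y)
  linarith only [h4, h5, h6]

/-- **The frames of two times on one cell.** -/
theorem cell_th {F : Fam 2 J} {p : F.Ω → ℝ} (hp : IsLaw p)
    {al : F.Ω → ℝ} {r : ℝ → ℝ} {x e τ h c : ℝ} {N i₀ i₁ D : ℕ}
    (hr : Monotone r) (hx : 0 ≤ x) (he : 0 < e) (hx1 : x + N * e ≤ 1) (hJ : 1 ≤ e * J)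
    (h1N : i₁ ≤ N) {a : ℕ → F.Ω → ℝ}
    (hL : Lev F p al (mvp r x e τ J) (mwi x e J 0) (mwi x e J N) a)
    {x₁ X ε₁ ϖ : ℝ} (hϖ : 0 < ϖ) (hε₁ : 0 < ε₁) (hc : c ≤ ε₁ * ϖ)
    (hno : ∀ i, i₀ ≤ i → i ≤ i₁ → ∀ B : F.Ω → Prop, c ≤ Pe p B →
      ¬ Kn F p B al (mwi x e J i) (2 ^ (-((r (x + i * e) + h) * J))))
    (hX : ∀ i, i₀ ≤ i → i < i₁ →
      (r (x + (i + 1 : ℕ) * e) - r (x + i * e) + τ + h) * J + 2 ≤ x₁ * X)
    (hX1 : (τ + h) * J + 2 ≤ x₁ * X)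
    (hD : mdi r x e τ J i₁ + x₁ * X + 1 ≤ D) :
    ∀ w, mwi x e J i₀ ≤ w → w ≤ mwi x e J i₁ → ∀ E : F.Ω → Prop, ϖ ≤ Pe p E →
      Pool.KAF.Pr (dbl (Pool.Agent.H49.Ent.cond p E True) (slam F w))
        {v | |sl2 (mvp r x e τ J w) D (a w) al v.2 - sl2 (mvp r x e τ J w) D (a w) al v.1| <
          (2 : ℝ) ^ (-(x₁ * X))} ≤ ε₁ := by
  intro w hw0 hw1 E hE
  have hst := mwi_strict hx he hJ
  have hi0 : i₀ ≤ mix x e J w := le_mix hx he hJ hw0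
  have hi1 : mix x e J w ≤ i₁ := by
    have := mix_mono (x := x) (J := J) he hw1
    rwa [mix_mwi hx he hJ] at this
  obtain ⟨i, hi⟩ : ∃ i, i = mix x e J w := ⟨_, rfl⟩
  rw [← hi] at hi0 hi1
  obtain ⟨v, hv⟩ : ∃ v, v = mvp r x e τ J w := ⟨_, rfl⟩
  have hvi : v = mdi r x e τ J i := by rw [hv, hi]; rfl
  have hvr : (r (x + i * e) - τ) * J < v + 1 := by
    rw [hvi]
    exact Nat.lt_floor_add_one _
  have hvD : (v : ℝ) + x₁ * X + 1 ≤ D := by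
    have h1 : v ≤ mdi r x e τ J i₁ := by rw [hvi]; exact mdi_mono hr he hi1
    have h2 : (v : ℝ) ≤ mdi r x e τ J i₁ := by exact_mod_cast h1
    linarith only [hD, h2]
  -- the mesh point above
  obtain ⟨i', hi'0, hi'1, hi'w, hi'X⟩ : ∃ i', i₀ ≤ i' ∧ i' ≤ i₁ ∧ w ≤ mwi x e J i' ∧
      (r (x + i' * e) - r (x + i * e) + τ + h) * J + 2 ≤ x₁ * X := by
    rcases hi1.lt_or_eq with h1 | h1
    · refine ⟨i + 1, by omega, h1, ?_, hX i hi0 h1⟩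
      rw [hi]
      exact (lt_mwi_mix hx he hJ).le
    · refine ⟨i, hi0, hi1, ?_, by simpa using hX1⟩
      rw [h1]
      exact hw1
  refine hL.sl2 hp (hϖ.trans_le hE) (th_al hp hϖ hε₁ hc (hno i' hi'0 hi'1) hi'w
    (mwi_J (mle he hx1 (hi'1.trans h1N))) le_rfl E hE)
    ((hst.monotone (Nat.zero_le _)).trans hw0) (hw1.trans (hst.monotone h1N)) ?_ ?_
  · rw [← hv]
    linarith only [hvr, hi'X]
  · rw [← hv]
    exact hvD

/-! ### The shape of a cell -/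

section shape

variable {r : ℝ → ℝ} {x e τ v e₁ d : ℝ} {i₀ i₁ i i' w w' : ℕ}

theorem mdi_le (hτ : 0 ≤ τ) (hr0 : 0 ≤ r (x + i * e)) :
    (mdi r x e τ J i : ℝ) ≤ r (x + i * e) * J := by
  have hJ : (0 : ℝ) ≤ J := Nat.cast_nonneg J
  rcases le_total 0 ((r (x + i * e) - τ) * J) with h | h
  · have := Nat.floor_le h
    unfold mdi
    nlinarith only [this, hτ]
  · unfold mdi
    rw [Nat.floor_of_nonpos h]
    push_cast
    exact mul_nonneg hr0 hJ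

theorem lt_mdi : (r (x + i * e) - τ) * J < (mdi r x e τ J i : ℝ) + 1 := Nat.lt_floor_add_one _

/-- The change of the number of digits. -/
theorem mdi_sub (hr : Monotone r) (he : 0 < e) (h : i ≤ i') :
    (mdi r x e τ J i' : ℝ) ≤ mdi r x e τ J i + (r (x + i' * e) - r (x + i * e)) * J + 1 := by
  have hJ : (0 : ℝ) ≤ J := Nat.cast_nonneg J
  have h1 : (i : ℝ) ≤ i' := by exact_mod_cast h
  have h2 : (i : ℝ) * e ≤ i' * e := mul_le_mul_of_nonneg_right h1 he.le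
  have h3 : 0 ≤ (r (x + i' * e) - r (x + i * e)) * J :=
    mul_nonneg (sub_nonneg.2 (hr (by linarith only [h2]))) hJ
  have h4 : (r (x + i * e) - τ) * J < (mdi r x e τ J i : ℝ) + 1 := lt_mdi
  rcases le_total 0 ((r (x + i' * e) - τ) * J) with h' | h'
  · have h5 : (mdi r x e τ J i' : ℝ) ≤ (r (x + i' * e) - τ) * J := Nat.floor_le h'
    nlinarith only [h4, h5]
  · have h5 : (mdi r x e τ J i' : ℝ) = 0 := by
      unfold mdi
      rw [Nat.floor_of_nonpos h']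
      simp
    rw [h5]
    have : (0 : ℝ) ≤ mdi r x e τ J i := Nat.cast_nonneg _
    linarith only [h3]

/-- The affine bounds at the mesh points. -/
theorem aff_mesh (hA : Msh.Aff r (x + i₀ * e) d v (e₁ * d)) (he : 0 < e)
    (hd : d = ((i₁ - i₀ : ℕ) : ℝ) * e) (h01 : i₀ ≤ i₁) (h0 : i₀ ≤ i) (h1 : i ≤ i₁) :
    |r (x + i * e) - r (x + i₀ * e) - v * ((i - i₀ : ℕ) * e)| ≤ e₁ * d := by
  have k0 : (i₀ : ℝ) ≤ i := by exact_mod_cast h0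
  have k1 : (i : ℝ) ≤ i₁ := by exact_mod_cast h1
  have k2 := hA (x + i * e) (by nlinarith only [he, k0]) (by
    rw [hd, Nat.cast_sub h01]
    nlinarith only [he, k1])
  have e1 : x + (i : ℝ) * e - (x + i₀ * e) = ((i - i₀ : ℕ) : ℝ) * e := by
    rw [Nat.cast_sub h0]
    ring
  rwa [e1] at k2

/-- The rise between two mesh points. -/
theorem aff_rise (hA : Msh.Aff r (x + i₀ * e) d v (e₁ * d)) (he : 0 < e)
    (hd : d = ((i₁ - i₀ : ℕ) : ℝ) * e) (h01 : i₀ ≤ i₁) (h0 : i₀ ≤ i) (hii : i ≤ i')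
    (h1 : i' ≤ i₁) :
    |r (x + i' * e) - r (x + i * e) - v * ((i' - i : ℕ) * e)| ≤ 2 * e₁ * d := by
  have a1 := abs_le.1 (aff_mesh hA he hd h01 h0 (hii.trans h1))
  have a2 := abs_le.1 (aff_mesh hA he hd h01 (h0.trans hii) h1)
  have e1 : ((i' - i : ℕ) : ℝ) * e = ((i' - i₀ : ℕ) : ℝ) * e - ((i - i₀ : ℕ) : ℝ) * e := by
    rw [Nat.cast_sub hii, Nat.cast_sub h0, Nat.cast_sub (h0.trans hii)]
    ring
  rw [e1, abs_le]
  constructor <;> nlinarith only [a1, a2]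

theorem rate_aux {X tt : ℕ} (hr : Monotone r) (he : 0 < e) (hJ0 : (0 : ℝ) < J) (h01 : i₀ ≤ i₁)
    (hd : d = ((i₁ - i₀ : ℕ) : ℝ) * e) (hτ : 0 ≤ τ) (hr0 : 0 ≤ r (x + i₀ * e))
    (hA : Msh.Aff r (x + i₀ * e) d v (e₁ * d)) (hv : 0 ≤ v)
    (h1 : X + 1 + (2 * e₁ * d + v * e + τ) * J ≤ v * tt) (g0 : i₀ ≤ i) (g2 : i ≤ i')
    (g1 : i' ≤ i₁) (a1 : (x + i * e) * J ≤ (w : ℝ) + 1)
    (a4 : (w' : ℝ) + 1 ≤ (x + (i' + 1 : ℕ) * e) * J) (a6 : (w : ℝ) + tt ≤ w') :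
    mdi r x e τ J i + X ≤ mdi r x e τ J i' := by
  have a5 := abs_le.1 (aff_rise hA he hd h01 g0 g2 g1)
  push_cast at a4
  rw [Nat.cast_sub g2] at a5
  have a7 : (tt : ℝ) - e * J ≤ ((i' : ℝ) - i) * e * J := by linarith only [a1, a6, a4]
  have a8 : v * (tt - e * J) ≤ v * (((i' : ℝ) - i) * e * J) := mul_le_mul_of_nonneg_left a7 hv
  have a9 : X + 1 + τ * J ≤ (r (x + i' * e) - r (x + i * e)) * J := by
    have b1 := mul_le_mul_of_nonneg_right a5.1 hJ0.le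
    linarith only [h1, a8, b1]
  have hr1 : 0 ≤ r (x + i * e) := by
    refine hr0.trans (hr ?_)
    have h2 : (i₀ : ℝ) ≤ i := by exact_mod_cast g0
    have h3 : (i₀ : ℝ) * e ≤ i * e := mul_le_mul_of_nonneg_right h2 he.le
    linarith only [h3]
  have b2 : (mdi r x e τ J i : ℝ) ≤ r (x + i * e) * J := mdi_le hτ hr1
  refine Nat.le_floor ?_
  push_cast
  linarith only [a9, b2]

/-- **The shape of a rising cell.** The cell is `[x + i₀ e, x + i₁ e]`, the slope is `v`, the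
blocks have `X` digits, `tt` windows. -/
theorem cell_sh {γ : ℝ} {D R tt X qa qb : ℕ} (hr : Monotone r)
    (hx : 0 ≤ x) (he : 0 < e) (hJ : 1 ≤ e * J) (h01 : i₀ ≤ i₁)
    (hd : d = ((i₁ - i₀ : ℕ) : ℝ) * e) (hτ : 0 ≤ τ) (hr0 : 0 ≤ r (x + i₀ * e))
    (hA : Msh.Aff r (x + i₀ * e) d v (e₁ * d)) (hv : 0 ≤ v)
    (h1 : X + 1 + (2 * e₁ * d + v * e + τ) * J ≤ v * tt) (hXt : X ≤ tt)
    (h2 : (tt : ℝ) ≤ γ * (d * J)) (h3 : (X : ℝ) ≤ γ * (qb - qa : ℕ)) (hγ : 0 ≤ γ)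
    (hD : (D : ℝ) - (r (x + i₀ * e) - τ) * J + 1 ≤ γ * (qb - qa : ℕ))
    (hR : (R : ℝ) - (x + i₀ * e) * J + 1 ≤ γ * (qb - qa : ℕ)) (hq : qa ≤ qb)
    (h4 : (1 + v + e₁) * d * J + 2 ≤ (qb - qa : ℕ)) :
    Sh2 (mwi x e J i₀) (mwi x e J i₁) (mvp r x e τ J) D R tt X qa qb γ := by
  have hJ0 := mJ_pos he hJ
  have hst := mwi_strict hx he hJ
  have hQ0 : (0 : ℝ) ≤ γ * (qb - qa : ℕ) := mul_nonneg hγ (Nat.cast_nonneg _)
  have hwab := hst.monotone h01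
  have v0 : mvp r x e τ J (mwi x e J i₀) = mdi r x e τ J i₀ := by
    unfold mvp
    rw [mix_mwi hx he hJ]
  have v1 : mvp r x e τ J (mwi x e J i₁) = mdi r x e τ J i₁ := by
    unfold mvp
    rw [mix_mwi hx he hJ]
  have hdJ : (mwi x e J i₁ : ℝ) - mwi x e J i₀ < d * J + 1 ∧
      d * J < (mwi x e J i₁ : ℝ) + 1 - mwi x e J i₀ := by
    have a1 : (mwi x e J i₁ : ℝ) ≤ (x + i₁ * e) * J := mwi_le hx he
    have a2 : (x + i₁ * e) * J < (mwi x e J i₁ : ℝ) + 1 := lt_mwi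
    have a3 : (mwi x e J i₀ : ℝ) ≤ (x + i₀ * e) * J := mwi_le hx he
    have a4 : (x + i₀ * e) * J < (mwi x e J i₀ : ℝ) + 1 := lt_mwi
    have e1 : d * J = (x + i₁ * e) * J - (x + i₀ * e) * J := by
      rw [hd, Nat.cast_sub h01]
      ring
    constructor <;> linarith
  refine ⟨hwab, hq, hXt, ?_, ?_, h3, ?_, ?_, ?_⟩
  · intro w w' hw hww hw'
    have g0 : i₀ ≤ mix x e J w := le_mix hx he hJ hw
    have g1 : mix x e J w' ≤ i₁ := by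
      have := mix_mono (x := x) (J := J) he hw'
      rwa [mix_mwi hx he hJ] at this
    have g2 : mix x e J w ≤ mix x e J w' := mix_mono he (by omega)
    have a1 : (x + mix x e J w * e) * J < (mwi x e J (mix x e J w) : ℝ) + 1 := lt_mwi
    have a2 : mwi x e J (mix x e J w) ≤ w := mwi_mix hx he hJ
      ((hst.monotone (Nat.zero_le _)).trans hw)
    have a3 : w' < mwi x e J (mix x e J w' + 1) := lt_mwi_mix hx he hJ
    have a4 : (mwi x e J (mix x e J w' + 1) : ℝ) ≤ (x + (mix x e J w' + 1 : ℕ) * e) * J :=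
      mwi_le hx he
    have a5 := abs_le.1 (aff_rise hA he hd h01 g0 g2 g1)
    have a2' : (mwi x e J (mix x e J w) : ℝ) ≤ w := by exact_mod_cast a2
    have a3' : (w' : ℝ) + 1 ≤ mwi x e J (mix x e J w' + 1) := by exact_mod_cast a3
    have a6 : (w : ℝ) + tt ≤ w' := by exact_mod_cast hww
    exact rate_aux hr he hJ0 h01 hd hτ hr0 hA hv h1 g0 g2 g1 (by linarith only [a1, a2'])
      (a3'.trans a4) a6
  · have h5 : d * J ≤ ((mwi x e J i₁ + 1 - mwi x e J i₀ : ℕ) : ℝ) := by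
      rw [Nat.cast_sub (by omega)]
      push_cast
      linarith only [hdJ]
    exact h2.trans (mul_le_mul_of_nonneg_left h5 hγ)
  · rw [v0]
    rcases le_total D (mdi r x e τ J i₀) with h | h
    · rw [Nat.sub_eq_zero_of_le h]
      simpa using hQ0
    · rw [Nat.cast_sub h]
      have h5 : (r (x + i₀ * e) - τ) * J < (mdi r x e τ J i₀ : ℝ) + 1 := lt_mdi
      linarith only [hD, h5]
  · rcases le_total R (mwi x e J i₀) with h | h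
    · rw [Nat.sub_eq_zero_of_le h]
      simpa using hQ0
    · rw [Nat.cast_sub h]
      have h5 : (x + i₀ * e) * J < (mwi x e J i₀ : ℝ) + 1 := lt_mwi
      linarith only [hR, h5]
  · rw [v0, v1]
    have b1 : (mdi r x e τ J i₁ : ℝ) ≤ mdi r x e τ J i₀ +
      (r (x + i₁ * e) - r (x + i₀ * e)) * J + 1 := mdi_sub hr he h01
    have b2 := abs_le.1 (aff_mesh hA he hd h01 h01 le_rfl)
    rw [← hd] at b2
    have b3 : (r (x + i₁ * e) - r (x + i₀ * e)) * J ≤ (v + e₁) * d * J := by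
      refine mul_le_mul_of_nonneg_right ?_ hJ0.le
      linarith only [b2, b2.2]
    have b4 : ((mwi x e J i₁ + mdi r x e τ J i₁ : ℕ) : ℝ) ≤
        ((mwi x e J i₀ + mdi r x e τ J i₀ + (qb - qa) : ℕ) : ℝ) := by
      push_cast [Nat.cast_sub hq] at h4 ⊢
      nlinarith only [hdJ, b1, b3, h4, hdJ.1]
    exact_mod_cast b4

end shape

end Pool.PC
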