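import Pool.Agent.H55.PC.Steep

/-!
# Constant frames on flat parts of the cells

On a part of a cell where the level moves by at most `x₀ X`, the frame of the first window is a
frame for all windows, and the frames of two times are different at the precision `x₁ X`.
-/

set_option autoImplicit false

namespace Pool.PC

open Finset Real
open Pool.Agent.H49.Ent Pool.Agent.H32.Dense Pool.STK Pool.KA Pool.KSAT Pool.K2S Pool.LK
open Pool.UEG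

variable {J : ℕ}

/-- The window of length `2 ^ (-w)` is a function of the window of length `2 ^ (-w')`. -/
theorem slam_fun {F : Fam 2 J} {w w' : ℕ} (h : w ≤ w') (hJ : w' ≤ J) {ω ω' : F.Ω}
    (he : slam F w' ω = slam F w' ω') : slam F w ω = slam F w ω' := by
  rw [Pool.PB.slam_coarse F h hJ, Pool.PB.slam_coarse F h hJ, he]

/-- **The constant frame** on the windows `[wa, wb]`. -/
theorem Lev.rcc {F : Fam 2 J} {p : F.Ω → ℝ} (hp : IsLaw p) {σ : Fin 2 → Fin 2}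
    (hσ : Function.Injective σ) {al : F.Ω → ℝ} {l : ℕ → ℕ} {W₀ W₁ : ℕ} {a : ℕ → F.Ω → ℝ}
    (h : Lev F p al l W₀ W₁ a) {wa wb D : ℕ} (h0 : W₀ ≤ wa) (h1 : wa ≤ W₁) (hb : wb ≤ J)
    (hD : l wa ≤ D) : Rc2 F p σ wa wb (fun _ => l wa) D (fun _ => a wa) al := by
  refine ⟨hp, hσ, hb, fun _ _ _ _ _ => le_rfl, fun _ _ _ => hD, ?_, fun _ _ _ ω _ => h.grid wa ω,
    ?_⟩
  · intro w _ _ ω hω
    refine (h.near wa h0 h1 ω hω).trans ?_
    exact div_le_div_of_nonneg_right (by norm_num) (by positivity)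
  · intro w k1 k2 ω ω' _ _ hs
    obtain ⟨ψ, hψ⟩ := h.cl wa h0 h1
    rw [hψ, hψ, slam_fun k1 (k2.trans hb) hs]

/-- The frames of two times from the slopes of two times, for any closed frame `b`. -/
theorem sl2_of_pair {F : Fam 2 J} {p : F.Ω → ℝ} (hp : IsLaw p) {al b : F.Ω → ℝ} {w v D : ℕ}
    (hb : Det p (slam F w) b) {y xX ε₁ : ℝ} {E : F.Ω → Prop} (hE : 0 < Pe p E)
    (hth : Pe (dbl (Pool.Agent.H49.Ent.cond p E True) (slam F w))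
      (fun u => |al u.1 - al u.2| ≤ 2 ^ (-y)) ≤ ε₁)
    (hy : y + 1 ≤ v + xX) (hD : v + xX + 1 ≤ D) :
    Pool.KAF.Pr (dbl (Pool.Agent.H49.Ent.cond p E True) (slam F w))
        {u | |sl2 v D b al u.2 - sl2 v D b al u.1| < (2 : ℝ) ^ (-xX)} ≤ ε₁ := by
  have hq := isLaw_cond hp hE
  refine le_trans ?_ hth
  change Pool.KAF.Pr _ _ ≤ Pool.KAF.Pr _ {u : F.Ω × F.Ω | |al u.1 - al u.2| ≤ 2 ^ (-y)}
  refine Uni.Pr_le_of (fun u => glue_nonneg hq.nonneg hq.nonneg u) fun u hu hS => ?_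
  obtain ⟨g1, g2, g3⟩ := (glue_pos_iff hq.nonneg hq.nonneg u).1 hu
  have p1 := ((cond_pos_iff hp.nonneg E True _).1 g1).1
  have p2 := ((cond_pos_iff hp.nonneg E True _).1 g2).1
  have ha : b u.1 = b u.2 := hb _ _ p1 p2 g3
  change |(2 : ℝ) ^ v * (((⌊(2 : ℝ) ^ D * al u.2⌋ : ℤ) : ℝ) / 2 ^ D - b u.2) -
    (2 : ℝ) ^ v * (((⌊(2 : ℝ) ^ D * al u.1⌋ : ℤ) : ℝ) / 2 ^ D - b u.1)| <
    (2 : ℝ) ^ (-xX) at hS
  rw [ha] at hS
  have e1 : (2 : ℝ) ^ v * (((⌊(2 : ℝ) ^ D * al u.2⌋ : ℤ) : ℝ) / 2 ^ D - b u.2) -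
    (2 : ℝ) ^ v * (((⌊(2 : ℝ) ^ D * al u.1⌋ : ℤ) : ℝ) / 2 ^ D - b u.2) =
    2 ^ v * (((⌊(2 : ℝ) ^ D * al u.2⌋ : ℤ) : ℝ) / 2 ^ D -
      ((⌊(2 : ℝ) ^ D * al u.1⌋ : ℤ) : ℝ) / 2 ^ D) := by ring
  have h2v : (0 : ℝ) < 2 ^ v := by positivity
  rw [e1, abs_mul, abs_of_pos h2v, ← lt_div_iff₀' h2v, abs_sub_comm] at hS
  have e2 : (2 : ℝ) ^ (-xX) / 2 ^ v = 2 ^ (-(v + xX)) := by
    rw [neg_add, Real.rpow_add two_pos, Real.rpow_neg two_pos.le (v : ℝ), Real.rpow_natCast]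
    field_simp
  rw [e2] at hS
  have h4 := near_of_rnd hS.le
  have h5 : (2 : ℝ) / 2 ^ D ≤ 2 ^ (-(v + xX)) := by
    have e3 : (2 : ℝ) / 2 ^ D = 2 ^ (1 - (D : ℝ)) := by
      rw [Real.rpow_sub two_pos, Real.rpow_one, Real.rpow_natCast]
    rw [e3]
    exact Real.rpow_le_rpow_of_exponent_le one_le_two (by linarith)
  have h6 : (2 : ℝ) ^ (-(v + xX)) + 2 ^ (-(v + xX)) ≤ 2 ^ (-y) := by
    have e3 : (2 : ℝ) ^ (-(v + xX)) + 2 ^ (-(v + xX)) = 2 ^ (1 + -(v + xX)) := by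
      rw [Real.rpow_add two_pos, Real.rpow_one]
      ring
    rw [e3]
    exact Real.rpow_le_rpow_of_exponent_le one_le_two (by linarith)
  show |al u.1 - al u.2| ≤ 2 ^ (-y)
  linarith

section

variable {F : Fam 2 J} {c : Nm} {n k : ℕ} {h cap δ : ℝ} {B : ℕ → Bx F}

/-- The increase of the class number over one mesh interval of a good cell. -/
theorem ok_incr (hn : 1 ≤ n) (hJ : n ≤ J) {d x₀ x₁ γ C cR Cq : ℝ} {N X tt i : ℕ}
    (hok : CellOk (fun y => min (c.rot y) cap) 0 d (1 / (n : ℝ)) (2 * h) (h + 2 / J) x₀ x₁ γ C cR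
      Cq N J X tt i) {w : ℕ} (hw0 : msh J n (i * N) ≤ w) (hw1 : w ≤ msh J n ((i + 1) * N))
    (hcap : c.rot ((mup 0 (1 / (n : ℝ)) J w : ℕ) / n) ≤ cap) :
    mup 0 (1 / (n : ℝ)) J w ≤ (i + 1) * N ∧
    (c.rot ((mup 0 (1 / (n : ℝ)) J w : ℕ) / n) + h) * J + 2 ≤
      vpc c cap h n J w + min x₀ x₁ * X - 1 := by
  have hn0 : (0 : ℝ) < n := by exact_mod_cast hn
  have hJ0 : (0 : ℝ) < J := by
    have h1 : (1 : ℝ) ≤ n := by exact_mod_cast hn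
    have h2 : (n : ℝ) ≤ J := by exact_mod_cast hJ
    linarith
  have g0 : mwi 0 (1 / (n : ℝ)) J (i * N) ≤ w := by rw [mwi_msh]; exact hw0
  have g1 : w ≤ mwi 0 (1 / (n : ℝ)) J ((i + 1) * N) := by rw [mwi_msh]; exact hw1
  have g00 : mwi 0 (1 / (n : ℝ)) J 0 ≤ w := by rw [mwi_0]; exact Nat.zero_le _
  have m0 : i * N ≤ mix 0 (1 / (n : ℝ)) J w := le_mix le_rfl (mshe hn) (mshJ hn hJ) g0
  have m1 := mup_le le_rfl (mshe hn) (mshJ hn hJ) g00 g1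
  refine ⟨m1, ?_⟩
  have hv : (min (c.rot ((mix 0 (1 / (n : ℝ)) J w : ℕ) / n)) cap - 2 * h) * J <
      (vpc c cap h n J w : ℝ) + 1 := by
    rw [vpc_eq]
    exact Nat.lt_floor_add_one _
  have hinc : (c.rot ((mup 0 (1 / (n : ℝ)) J w : ℕ) / n) -
      min (c.rot ((mix 0 (1 / (n : ℝ)) J w : ℕ) / n)) cap + 2 * h + (h + 2 / J)) * J + 2 ≤
      min x₀ x₁ * X := by
    by_cases hu : w = mwi 0 (1 / (n : ℝ)) J (mix 0 (1 / (n : ℝ)) J w)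
    · have e1 : mup 0 (1 / (n : ℝ)) J w = mix 0 (1 / (n : ℝ)) J w := by
        unfold mup
        rw [if_pos hu]
      rw [e1] at hcap ⊢
      rw [min_eq_left hcap, sub_self, zero_add]
      exact hok.one
    · have e1 : mup 0 (1 / (n : ℝ)) J w = mix 0 (1 / (n : ℝ)) J w + 1 := by
        unfold mup
        rw [if_neg hu]
      rw [e1] at hcap m1 ⊢
      have h1 := hok.inn (mix 0 (1 / (n : ℝ)) J w) m0 (by omega)
      rw [mpt, mpt, min_eq_left hcap] at h1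
      exact h1
  have e3 : (c.rot ((mup 0 (1 / (n : ℝ)) J w : ℕ) / n) -
      min (c.rot ((mix 0 (1 / (n : ℝ)) J w : ℕ) / n)) cap + 2 * h + (h + 2 / J)) * J =
      (c.rot ((mup 0 (1 / (n : ℝ)) J w : ℕ) / n) + h) * J -
      (min (c.rot ((mix 0 (1 / (n : ℝ)) J w : ℕ) / n)) cap - 2 * h) * J + 2 := by
    field_simp
    ring
  linarith

/-- **The frames of two times for the constant frame** of the window `wa`, on a part of a good cell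
where the level moves by at most `x₀ X`, `2 x₀ ≤ x₁`. -/
theorem lvl_flatw (hL : Lvl F c n h B k) (hn : 1 ≤ n) (hJ : n ≤ J) (hh : 0 < h) (hh1 : h < 1)
    (hr0 : ∀ w, 0 ≤ c.rot w) {a : ℕ → F.Ω → ℝ}
    (hLev : Lev F F.p (B k).a (vpc c cap h n J) 0 J a) {ε₁ ϖ : ℝ} (hϖ : 0 < ϖ) (hε₁ : 0 < ε₁)
    (hc : h ≤ ε₁ * ϖ) {d x₀ x₁ x' γ C cR Cq : ℝ} {N X tt i D : ℕ} (hi : (i + 1) * N ≤ n)
    (hok : CellOk (fun y => min (c.rot y) cap) 0 d (1 / (n : ℝ)) (2 * h) (h + 2 / J) x₀ x₁ γ C cR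
      Cq N J X tt i) {wa w : ℕ} (hwa : wa ≤ w) (hw0 : msh J n (i * N) ≤ w)
    (hw1 : w ≤ msh J n ((i + 1) * N))
    (hcap : c.rot ((mup 0 (1 / (n : ℝ)) J w : ℕ) / n) ≤ cap)
    (hr : c.rot ((mup 0 (1 / (n : ℝ)) J w : ℕ) / n) < c.n - c.q)
    (hflat : (vpc c cap h n J w : ℝ) ≤ vpc c cap h n J wa + x₀ * X) (hx : 2 * x₀ ≤ x')
    (hD : vpc c cap h n J wa + x' * X + 1 ≤ D) (E : F.Ω → Prop) (hE : ϖ ≤ Pe F.p E) :
    Pool.KAF.Pr (dbl (Pool.Agent.H49.Ent.cond F.p E True) (slam F w))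
      {v | |sl2 (vpc c cap h n J wa) D (a wa) (B k).a v.2 -
        sl2 (vpc c cap h n J wa) D (a wa) (B k).a v.1| < (2 : ℝ) ^ (-(x' * X))} ≤ ε₁ := by
  have hX0 : (0 : ℝ) ≤ X := Nat.cast_nonneg X
  obtain ⟨m1, hy⟩ := ok_incr (n := n) (cap := cap) hn hJ hok hw0 hw1 hcap
  have hwm := le_mwi_mup (x := 0) le_rfl (mshe hn) (mshJ hn hJ) w
  have hwJ : w ≤ J := hwm.trans (mwi_J (mle (mshe hn) (msh1 hn) (m1.trans hi)))
  have hmx : min x₀ x₁ * X ≤ x₀ * X := mul_le_mul_of_nonneg_right (min_le_left _ _) hX0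
  have hx2 : 2 * x₀ * X ≤ x' * X := mul_le_mul_of_nonneg_right hx hX0
  obtain ⟨ψ, hψ⟩ := hLev.cl wa (Nat.zero_le _) (hwa.trans hwJ)
  refine sl2_of_pair F.isLaw (y := vpc c cap h n J wa + x' * X - 1)
    (fun ω ω' _ _ hs => by rw [hψ, hψ, slam_fun hwa hwJ hs]) (hϖ.trans_le hE) ?_ (by linarith) hD
  refine lvl_th hL hn hh hh1 hr0 hϖ hε₁ hc (m1.trans hi) hr ?_ ?_ E hE
  · rw [← mwi_msh]
    exact hwm
  · linarith

/-- The same for the law of the family. -/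
theorem lvl_flatw0 (hL : Lvl F c n h B k) (hn : 1 ≤ n) (hJ : n ≤ J) (hh : 0 < h) (hh1 : h < 1)
    (hr0 : ∀ w, 0 ≤ c.rot w) {a : ℕ → F.Ω → ℝ}
    (hLev : Lev F F.p (B k).a (vpc c cap h n J) 0 J a) {ε₁ : ℝ} (hε₁ : 0 < ε₁)
    (hc : h ≤ ε₁) {d x₀ x₁ x' γ C cR Cq : ℝ} {N X tt i D : ℕ} (hi : (i + 1) * N ≤ n)
    (hok : CellOk (fun y => min (c.rot y) cap) 0 d (1 / (n : ℝ)) (2 * h) (h + 2 / J) x₀ x₁ γ C cR
      Cq N J X tt i) {wa w : ℕ} (hwa : wa ≤ w) (hw0 : msh J n (i * N) ≤ w)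
    (hw1 : w ≤ msh J n ((i + 1) * N))
    (hcap : c.rot ((mup 0 (1 / (n : ℝ)) J w : ℕ) / n) ≤ cap)
    (hr : c.rot ((mup 0 (1 / (n : ℝ)) J w : ℕ) / n) < c.n - c.q)
    (hflat : (vpc c cap h n J w : ℝ) ≤ vpc c cap h n J wa + x₀ * X) (hx : 2 * x₀ ≤ x')
    (hD : vpc c cap h n J wa + x' * X + 1 ≤ D) :
    Pool.KAF.Pr (dbl F.p (slam F w))
      {v | |sl2 (vpc c cap h n J wa) D (a wa) (B k).a v.2 -
        sl2 (vpc c cap h n J wa) D (a wa) (B k).a v.1| < (2 : ℝ) ^ (-(x' * X))} ≤ ε₁ := by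
  have h1 := lvl_flatw (ϖ := 1) hL hn hJ hh hh1 hr0 hLev one_pos hε₁ (by rw [mul_one]; exact hc)
    hi hok hwa hw0 hw1 hcap hr hflat hx hD (fun _ => True) (Pe_true F.isLaw).ge
  rwa [cond_true F.isLaw] at h1

end

end Pool.PC
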