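import Pool.Agent.H55.PC.Cell

/-!
# The classification of the cells

All cells of a fine mesh, except cells of small total length, are rising (the shape of the
rectangle theorems) or flat (the level moves little on `C X` windows), with one length `X` of the
blocks.
-/

set_option autoImplicit false

namespace Pool.PC

open Finset Real
open Pool.UEG

/-- The cell `i` of the mesh `a + i d` is rising or flat; the inner mesh is `a + j e`. -/
structure CellOk (r : ℝ → ℝ) (a d e τ h x₀ x₁ γ C cR Cq : ℝ) (N J X tt i : ℕ) : Prop where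
  one : (τ + h) * J + 2 ≤ min x₀ x₁ * X
  inn : ∀ j, i * N ≤ j → j < (i + 1) * N →
    (r (a + (j + 1 : ℕ) * e) - r (a + j * e) + τ + h) * J + 2 ≤ min x₀ x₁ * X
  alt : (∀ D R qa qb : ℕ, (D : ℝ) ≤ mdi r a e τ J ((i + 1) * N) + x₁ * X + 3 →
      (R : ℝ) ≤ mwi a e J ((i + 1) * N) + cR * X → qa ≤ qb → Cq * d * J ≤ γ * (qb - qa : ℕ) →
      Sh2 (mwi a e J (i * N)) (mwi a e J ((i + 1) * N)) (mvp r a e τ J) D R tt X qa qb γ) ∨
    (∀ w w' : ℕ, mwi a e J (i * N) ≤ w → w ≤ w' → w' ≤ mwi a e J ((i + 1) * N) →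
      (w' : ℝ) ≤ w + C * X → (mvp r a e τ J w' : ℝ) ≤ mvp r a e τ J w + x₀ * X)

/-- The constants of one mesh. -/
structure LevK (x₀ x₁ γ C cR v₀ κ e₁ vm Cq d e τ h : ℝ) (J X : ℕ) : Prop where
  v0 : 0 < v₀
  v1 : v₀ ≤ 1
  vC : v₀ * C ≤ x₀ / 4
  κ1 : κ = γ * v₀ / 4
  e0 : 0 < e₁
  e1 : e₁ ≤ γ * v₀ / 16
  e2 : e₁ ≤ min x₀ x₁ * κ / 16
  vm0 : 0 ≤ vm
  Cq1 : Cq = 3 + vm + e₁ + κ + x₁ * κ + cR * κ
  d0 : 0 < d
  ep : 0 < e
  ed1 : e ≤ γ * d / 8
  ed2 : e ≤ min x₀ x₁ * κ * d / 16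
  ed3 : vm * e ≤ min x₀ x₁ * κ * d / 16
  τ0 : 0 ≤ τ
  τ1 : τ ≤ γ * v₀ * d / 8
  τ2 : τ ≤ min x₀ x₁ * κ * d / 32
  τ3 : τ ≤ d
  h1 : h ≤ min x₀ x₁ * κ * d / 32
  J1 : 1 ≤ e * J
  J2 : 8 * (1 + 1 / v₀) ≤ γ * (d * J)
  J3 : 64 ≤ min x₀ x₁ * κ * (d * J)
  J4 : 5 ≤ d * J
  X1 : κ / 2 * (d * J) ≤ X
  X2 : X ≤ κ * (d * J)

variable {x₀ x₁ γ C cR v₀ κ e₁ vm Cq d e τ h : ℝ} {J X : ℕ}

/-- **One cell.** -/
theorem LevK.cell (K : LevK x₀ x₁ γ C cR v₀ κ e₁ vm Cq d e τ h J X) (hx₀ : 0 < x₀) (hx₁ : 0 < x₁)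
    (hγ : 0 < γ) (hγ1 : γ ≤ 1) (hcR : 0 ≤ cR) {r : ℝ → ℝ} (hr : Monotone r) {a : ℝ} (ha : 0 ≤ a)
    (hra : 0 ≤ r a) {N i : ℕ} (hde : d = N * e) {v : ℝ} (hv : 0 ≤ v)
    (hvm : v ≤ vm) (hA : Msh.Aff r (a + i * d) d v (e₁ * d)) :
    CellOk r a d e τ h x₀ x₁ γ C cR Cq N J X
      ⌈e * J + (X + 1 + (2 * e₁ * d + τ) * J) / v₀⌉₊ i := by
  have hJ0 := mJ_pos K.ep K.J1
  have hxm : 0 < min x₀ x₁ := lt_min hx₀ hx₁
  have hm0 : min x₀ x₁ ≤ x₀ := min_le_left _ _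
  have hm1 : min x₀ x₁ ≤ x₁ := min_le_right _ _
  obtain ⟨xm, hxmE⟩ : ∃ xm, xm = min x₀ x₁ := ⟨_, rfl⟩
  have hκ : 0 < κ := by rw [K.κ1]; have := K.v0; positivity
  obtain ⟨i₀, hi₀⟩ : ∃ i₀, i₀ = i * N := ⟨_, rfl⟩
  obtain ⟨i₁, hi₁⟩ : ∃ i₁, i₁ = (i + 1) * N := ⟨_, rfl⟩
  have h01 : i₀ ≤ i₁ := by rw [hi₀, hi₁]; exact Nat.mul_le_mul_right _ (Nat.le_succ i)
  have hsub : i₁ - i₀ = N := by rw [hi₀, hi₁, Nat.add_mul, one_mul, Nat.add_sub_cancel_left]
  have hd : d = ((i₁ - i₀ : ℕ) : ℝ) * e := by rw [hsub]; exact hde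
  have hA' : Msh.Aff r (a + i₀ * e) d v (e₁ * d) := by
    have e1 : a + (i₀ : ℝ) * e = a + i * d := by
      rw [hi₀, hde]
      push_cast
      ring
    rw [e1]
    exact hA
  have hr0 : 0 ≤ r (a + i₀ * e) := by
    refine hra.trans (hr ?_)
    have : (0 : ℝ) ≤ i₀ * e := mul_nonneg (Nat.cast_nonneg _) K.ep.le
    linarith only [this]
  -- products with `J`
  obtain ⟨dJ, hdJ⟩ : ∃ dJ, dJ = d * J := ⟨_, rfl⟩
  have hdJ0 : 0 < dJ := by rw [hdJ]; exact mul_pos K.d0 hJ0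
  have pX : 0 < xm * (κ * dJ) := by rw [hxmE]; positivity
  have E1 : xm * (κ * dJ) ≤ 2 * (xm * X) := by
    have h2 := mul_le_mul_of_nonneg_left K.X1 hxm.le
    rw [← hxmE, ← hdJ] at h2
    linarith only [h2]
  have E2 : (2 * e₁ * d) * J ≤ xm * (κ * dJ) / 8 := by
    have h2 := mul_le_mul_of_nonneg_right K.e2 hdJ0.le
    rw [← hxmE] at h2
    rw [hdJ] at h2 ⊢
    linarith only [h2]
  have E3 : e * J ≤ xm * (κ * dJ) / 16 := by
    have h2 := mul_le_mul_of_nonneg_right K.ed2 hJ0.le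
    rw [← hxmE] at h2
    rw [hdJ]
    linarith only [h2]
  have E4 : vm * e * J ≤ xm * (κ * dJ) / 16 := by
    have h2 := mul_le_mul_of_nonneg_right K.ed3 hJ0.le
    rw [← hxmE] at h2
    rw [hdJ]
    linarith only [h2]
  have E5 : τ * J ≤ xm * (κ * dJ) / 32 := by
    have h2 := mul_le_mul_of_nonneg_right K.τ2 hJ0.le
    rw [← hxmE] at h2
    rw [hdJ]
    linarith only [h2]
  have E6 : h * J ≤ xm * (κ * dJ) / 32 := by
    have h2 := mul_le_mul_of_nonneg_right K.h1 hJ0.le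
    rw [← hxmE] at h2
    rw [hdJ]
    linarith only [h2]
  have E7 : 64 ≤ xm * (κ * dJ) := by
    have h2 := K.J3
    rw [← hxmE, ← hdJ] at h2
    linarith only [h2]
  have hxX : xm * X ≤ x₀ * X := mul_le_mul_of_nonneg_right (hxmE ▸ hm0) (Nat.cast_nonneg X)
  refine ⟨?_, ?_, ?_⟩
  · rw [← hxmE]
    linarith only [E1, E5, E6, E7]
  · intro j hj0 hj1
    have k1 := abs_le.1 (aff_rise (i := j) (i' := j + 1) hA' K.ep hd h01 (by rw [hi₀]; exact hj0)
      (Nat.le_succ j) (by rw [hi₁]; exact hj1))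
    have k2 : ((j + 1 - j : ℕ) : ℝ) = 1 := by rw [Nat.add_sub_cancel_left]; simp
    rw [k2, one_mul] at k1
    have k3 : v * e ≤ vm * e := mul_le_mul_of_nonneg_right hvm K.ep.le
    have k4 : (r (a + (j + 1 : ℕ) * e) - r (a + j * e)) * J ≤ (vm * e + 2 * e₁ * d) * J :=
      mul_le_mul_of_nonneg_right (by linarith only [k1, k3, k1.2]) hJ0.le
    rw [← hxmE]
    linarith only [E1, E2, E4, E5, E6, E7, k4]
  · rw [← hi₀, ← hi₁]
    rcases le_or_gt v₀ v with hvv | hvv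
    · -- rising
      left
      intro D R qa qb hD hR hq hQ
      obtain ⟨Q, hQE⟩ : ∃ Q : ℝ, Q = (qb - qa : ℕ) := ⟨_, rfl⟩
      have hQ0 : 0 ≤ Q := by rw [hQE]; exact Nat.cast_nonneg _
      have hγQ : γ * Q ≤ Q := mul_le_of_le_one_left hQ0 hγ1
      have b0 : 0 ≤ (X : ℝ) + 1 + (2 * e₁ * d + τ) * J := by
        have := K.e0
        have := K.d0
        have := K.τ0
        positivity
      have b1 : 0 ≤ e * J + (X + 1 + (2 * e₁ * d + τ) * J) / v₀ := by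
        have := K.v0
        have := K.ep
        positivity
      have b2 := Nat.le_ceil (e * J + (X + 1 + (2 * e₁ * d + τ) * J) / v₀)
      have b3 := Nat.ceil_lt_add_one b1
      obtain ⟨tt, htt⟩ : ∃ tt, tt = ⌈e * J + (X + 1 + (2 * e₁ * d + τ) * J) / v₀⌉₊ := ⟨_, rfl⟩
      rw [← htt] at b2 b3 ⊢
      obtain ⟨Y, hY⟩ : ∃ Y, Y = (X + 1 + (2 * e₁ * d + τ) * J) / v₀ := ⟨_, rfl⟩
      have hYv : Y * v₀ = X + 1 + (2 * e₁ * d + τ) * J := by
        rw [hY]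
        exact div_mul_cancel₀ _ K.v0.ne'
      rw [← hY] at b1 b2 b3
      have hY0 : 0 ≤ Y := by rw [hY]; exact div_nonneg b0 K.v0.le
      have hCq : Cq * dJ ≤ γ * Q := by
        rw [hdJ, ← mul_assoc, hQE]
        exact hQ
      rw [K.Cq1] at hCq
      have c0 : 0 ≤ vm * dJ := mul_nonneg K.vm0 hdJ0.le
      have c1 : 0 ≤ e₁ * dJ := mul_nonneg K.e0.le hdJ0.le
      have c2 : 0 ≤ κ * dJ := mul_nonneg hκ.le hdJ0.le
      have c3 : 0 ≤ x₁ * κ * dJ := by positivity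
      have c4 : 0 ≤ cR * κ * dJ := by positivity
      have c5 : 5 ≤ dJ := by rw [hdJ]; exact K.J4
      have hX2 : (X : ℝ) ≤ κ * dJ := by rw [hdJ]; exact K.X2
      have hτJ : τ * J ≤ dJ := by
        rw [hdJ]
        exact mul_le_mul_of_nonneg_right K.τ3 hJ0.le
      refine cell_sh (v := v) hr ha K.ep K.J1 h01 hd K.τ0 hr0 hA' hv ?_ ?_ ?_ ?_ hγ.le ?_ ?_
        hq ?_
      · -- the rate
        have g1 : Y * v₀ ≤ Y * v := mul_le_mul_of_nonneg_left hvv hY0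
        have g2 : v * (e * J + Y) ≤ v * tt := mul_le_mul_of_nonneg_left b2 hv
        linarith only [hYv, g1, g2]
      · have g1 : (X : ℝ) ≤ tt := by
          have g2 : Y * v₀ ≤ Y * 1 := mul_le_mul_of_nonneg_left K.v1 hY0
          have g3 : 0 ≤ (2 * e₁ * d + τ) * J := by
            have := K.e0
            have := K.d0
            have := K.τ0
            positivity
          have g4 : 0 ≤ e * J := mul_nonneg K.ep.le hJ0.le
          linarith only [b2, hYv, g2, g3, g4]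
        exact_mod_cast g1
      · -- the length of the blocks
        have g1 : Y ≤ γ * dJ / 4 + 1 / v₀ + γ * dJ / 8 + γ * dJ / 8 := by
          rw [hY, div_le_iff₀ K.v0]
          have g2 : (γ * dJ / 4 + 1 / v₀ + γ * dJ / 8 + γ * dJ / 8) * v₀ =
              γ * v₀ / 4 * dJ + 1 + γ * v₀ / 8 * dJ + γ * v₀ * dJ / 8 := by
            have := K.v0.ne'
            field_simp
          rw [g2, ← K.κ1]
          have g3 : 2 * e₁ * d * J ≤ γ * v₀ / 8 * dJ := by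
            have := mul_le_mul_of_nonneg_right K.e1 hdJ0.le
            rw [hdJ] at this ⊢
            linarith only [this]
          have g4 : τ * J ≤ γ * v₀ * dJ / 8 := by
            have := mul_le_mul_of_nonneg_right K.τ1 hJ0.le
            rw [hdJ]
            linarith only [this]
          linarith only [hX2, g3, g4]
        have g5 : e * J ≤ γ * dJ / 8 := by
          have := mul_le_mul_of_nonneg_right K.ed1 hJ0.le
          rw [hdJ]
          linarith only [this]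
        have g6 := K.J2
        rw [← hdJ] at g6 ⊢
        have g7 : (0 : ℝ) < 1 / v₀ := one_div_pos.2 K.v0
        linarith only [b3, g1, g5, g6, g7]
      · rw [← hQE]
        linarith only [hCq, c0, c1, c3, c4, c5, hX2]
      · -- the own frame
        rw [← hQE]
        have g1 : (mdi r a e τ J i₁ : ℝ) ≤ mdi r a e τ J i₀ +
          (r (a + i₁ * e) - r (a + i₀ * e)) * J + 1 := mdi_sub hr K.ep h01
        have g2 : (mdi r a e τ J i₀ : ℝ) ≤ r (a + i₀ * e) * J := mdi_le K.τ0 hr0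
        have g3 := abs_le.1 (aff_mesh hA' K.ep hd h01 h01 le_rfl)
        rw [← hd] at g3
        have g4 : (r (a + i₁ * e) - r (a + i₀ * e)) * J ≤ (vm * d + e₁ * d) * J := by
          refine mul_le_mul_of_nonneg_right ?_ hJ0.le
          have : v * d ≤ vm * d := mul_le_mul_of_nonneg_right hvm K.d0.le
          linarith only [g3, this, g3.2]
        have g5 : (vm * d + e₁ * d) * J = vm * dJ + e₁ * dJ := by rw [hdJ]; ring
        have g6 : x₁ * X ≤ x₁ * κ * dJ := by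
          rw [mul_assoc]
          exact mul_le_mul_of_nonneg_left hX2 hx₁.le
        linarith only [hD, hCq, c2, c4, c5, hτJ, g1, g2, g4, g5, g6]
      · rw [← hQE]
        have g1 : (mwi a e J i₁ : ℝ) ≤ (a + i₁ * e) * J := mwi_le ha K.ep
        have g2 : (a + i₁ * e) * J = (a + i₀ * e) * J + dJ := by
          rw [hdJ, hd, Nat.cast_sub h01]
          ring
        have g3 : cR * X ≤ cR * κ * dJ := by
          rw [mul_assoc]
          exact mul_le_mul_of_nonneg_left hX2 hcR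
        linarith only [hR, hCq, c0, c1, c2, c3, c5, g1, g2, g3]
      · rw [← hQE]
        have g1 : (1 + v + e₁) * d * J ≤ dJ + vm * dJ + e₁ * dJ := by
          rw [hdJ]
          have : v * (d * J) ≤ vm * (d * J) := by
            rw [← hdJ]
            exact mul_le_mul_of_nonneg_right hvm hdJ0.le
          linarith only [this]
        linarith only [hγQ, hCq, c2, c3, c4, c5, g1]
    · -- flat
      right
      intro w w' hw hww hw' hC
      have hst := mwi_strict ha K.ep K.J1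
      have g0 : i₀ ≤ mix a e J w := le_mix ha K.ep K.J1 hw
      have g1 : mix a e J w' ≤ i₁ := by
        have := mix_mono (x := a) (J := J) K.ep hw'
        rwa [mix_mwi ha K.ep K.J1] at this
      have g2 : mix a e J w ≤ mix a e J w' := mix_mono K.ep hww
      have a1 : (a + mix a e J w' * e) * J < (mwi a e J (mix a e J w') : ℝ) + 1 := lt_mwi
      have a2 : mwi a e J (mix a e J w') ≤ w' := mwi_mix ha K.ep K.J1
        ((hst.monotone (Nat.zero_le _)).trans (hw.trans hww))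
      have a3 : w < mwi a e J (mix a e J w + 1) := lt_mwi_mix ha K.ep K.J1
      have a4 : (mwi a e J (mix a e J w + 1) : ℝ) ≤ (a + (mix a e J w + 1 : ℕ) * e) * J :=
        mwi_le ha K.ep
      have a5 := abs_le.1 (aff_rise hA' K.ep hd h01 g0 g2 g1)
      have a6 : (mdi r a e τ J (mix a e J w') : ℝ) ≤ mdi r a e τ J (mix a e J w) +
        (r (a + mix a e J w' * e) - r (a + mix a e J w * e)) * J + 1 := mdi_sub hr K.ep g2
      have a2' : (mwi a e J (mix a e J w') : ℝ) ≤ w' := by exact_mod_cast a2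
      have a3' : (w : ℝ) + 1 ≤ mwi a e J (mix a e J w + 1) := by exact_mod_cast a3
      unfold mvp
      rw [Nat.cast_sub g2] at a5
      push_cast at a4
      generalize mix a e J w = k at *
      generalize mix a e J w' = k' at *
      have b1 : ((k' : ℝ) - k) * e * J ≤ C * X + e * J := by linarith only [hC, a3', a4, a1, a2']
      have hk : (0 : ℝ) ≤ ((k' : ℝ) - k) * e * J := by
        have : (k : ℝ) ≤ k' := by exact_mod_cast g2
        have h2 := K.ep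
        have h3 : 0 ≤ (k' : ℝ) - k := by linarith only [this]
        positivity
      have b2 : v * (((k' : ℝ) - k) * e * J) ≤ v₀ * (C * X + e * J) :=
        (mul_le_mul_of_nonneg_right hvv.le hk).trans (mul_le_mul_of_nonneg_left b1 K.v0.le)
      have b3 := mul_le_mul_of_nonneg_right a5.2 hJ0.le
      have b4 : v₀ * (e * J) ≤ e * J := by
        have : 0 ≤ e * J := mul_nonneg K.ep.le hJ0.le
        exact mul_le_of_le_one_left this K.v1
      have b5 : v₀ * (C * X) ≤ x₀ * X / 4 := by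
        have := mul_le_mul_of_nonneg_right K.vC (Nat.cast_nonneg (α := ℝ) X)
        linarith only [this]
      linarith only [E1, E2, E3, E7, hxX, a6, b2, b3, b4, b5]

/-- **The classification of the cells.** -/
theorem level {x₀ x₁ γ ρ C cR : ℝ} (hx₀ : 0 < x₀) (hx₁ : 0 < x₁) (hγ : 0 < γ) (hγ1 : γ ≤ 1)
    (hρ : 0 < ρ) (hC : 1 ≤ C) (hcR : 0 ≤ cR) : ∃ κ Cq : ℝ, 0 < κ ∧ κ ≤ 1 ∧ 0 < Cq ∧
    ∀ r : ℝ → ℝ, Monotone r → ∀ a b : ℝ, 0 ≤ a → a < b → 0 ≤ r a → r b ≤ 1 →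
    ∀ d' : ℝ, 0 < d' → ∃ M : ℕ, 0 < M ∧ (b - a) / M ≤ d' ∧ ∃ Bad : Finset ℕ, Bad ⊆ range M ∧
      (Bad.card : ℝ) * ((b - a) / M) ≤ ρ ∧ ∃ N₀ : ℕ, 0 < N₀ ∧ ∀ N : ℕ, N₀ ≤ N →
      ∀ d e : ℝ, d = (b - a) / M → e = d / N → ∃ τ₀ : ℝ, 0 < τ₀ ∧ ∃ J₀ : ℕ, ∀ J : ℕ, J₀ ≤ J →
        1 ≤ e * J ∧ ∀ τ h : ℝ, 0 ≤ τ → τ ≤ τ₀ → h ≤ τ₀ → ∀ X : ℕ, κ / 2 * (d * J) ≤ X →
          X ≤ κ * (d * J) → ∃ tt : ℕ, ∀ i < M, i ∉ Bad →
            CellOk r a d e τ h x₀ x₁ γ C cR Cq N J X tt i := by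
  classical
  have hxm : 0 < min x₀ x₁ := lt_min hx₀ hx₁
  obtain ⟨v₀, hv₀⟩ : ∃ v₀ : ℝ, v₀ = min (x₀ / (4 * C)) 1 := ⟨_, rfl⟩
  have hC0 : 0 < C := by linarith only [hC]
  have v0 : 0 < v₀ := by rw [hv₀]; exact lt_min (by positivity) one_pos
  have v1 : v₀ ≤ 1 := by rw [hv₀]; exact min_le_right _ _
  have vC : v₀ * C ≤ x₀ / 4 := by
    have h1 : v₀ ≤ x₀ / (4 * C) := by rw [hv₀]; exact min_le_left _ _
    calc v₀ * C ≤ x₀ / (4 * C) * C := mul_le_mul_of_nonneg_right h1 hC0.le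
      _ = x₀ / 4 := by field_simp
  obtain ⟨κ, hκ⟩ : ∃ κ : ℝ, κ = γ * v₀ / 4 := ⟨_, rfl⟩
  have κ0 : 0 < κ := by rw [hκ]; positivity
  obtain ⟨e₁, he₁⟩ : ∃ e₁ : ℝ, e₁ = min (γ * v₀ / 16) (min x₀ x₁ * κ / 16) := ⟨_, rfl⟩
  have e0 : 0 < e₁ := by rw [he₁]; exact lt_min (by positivity) (by positivity)
  obtain ⟨vm, hvm⟩ : ∃ vm : ℝ, vm = e₁ + 2 * 1 / ρ := ⟨_, rfl⟩
  have vm0 : 0 < vm := by rw [hvm]; positivity
  refine ⟨κ, 3 + vm + e₁ + κ + x₁ * κ + cR * κ, κ0, ?_, by positivity, ?_⟩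
  · rw [hκ]
    have : γ * v₀ ≤ 1 * 1 := mul_le_mul hγ1 v1 v0.le zero_le_one
    linarith only [this]
  intro r hr a b ha hab hra hrb d' hd'
  obtain ⟨d₀, hd₀, hmesh⟩ := Msh.mesh_bdd (V := 1) hr hab e0 hρ (by linarith only [hra, hrb])
  -- the mesh
  have hmin : 0 < min d₀ d' := lt_min hd₀ hd'
  obtain ⟨M, hM⟩ := exists_nat_gt ((b - a) / min d₀ d')
  have hba : 0 < b - a := by linarith only [hab]
  have hM0 : (0 : ℝ) < M := lt_trans (div_pos hba hmin) hM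
  have hMn : 0 < M := by exact_mod_cast hM0
  have hdM : (b - a) / M < min d₀ d' := by
    rw [div_lt_iff₀ hM0, mul_comm]
    rwa [div_lt_iff₀ hmin] at hM
  obtain ⟨P, hP⟩ : ∃ P : ℕ → Prop, P = fun i : ℕ => ∃ v, 0 ≤ v ∧ v ≤ vm ∧
    Msh.Aff r (a + i * ((b - a) / M)) ((b - a) / M) v (e₁ * ((b - a) / M)) := ⟨_, rfl⟩
  refine ⟨M, hMn, (hdM.trans_le (min_le_right _ _)).le, (range M).filter fun i => ¬ P i,
    filter_subset _ _, ?_, ?_⟩
  · refine hmesh ((b - a) / M) (div_pos hba hM0) (hdM.trans_le (min_le_left _ _)) a M le_rfl ?_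
      _ (filter_subset _ _) ?_
    · rw [mul_div_cancel₀ _ hM0.ne']
      linarith only
    · intro i hi v hv1 hv2 hA
      refine (mem_filter.1 hi).2 ?_
      rw [hP]
      refine ⟨v, hv1, ?_, hA⟩
      rw [hvm]
      exact hv2
  obtain ⟨N₀, hN₀⟩ := exists_nat_gt (8 / γ + 16 / (min x₀ x₁ * κ) + 16 * vm / (min x₀ x₁ * κ))
  have q1 : 0 < 8 / γ := by positivity
  have q2 : 0 < 16 / (min x₀ x₁ * κ) := by positivity
  have q3 : 0 < 16 * vm / (min x₀ x₁ * κ) := by positivity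
  have hN₀r : (0 : ℝ) < N₀ := by linarith only [hN₀, q1, q2, q3]
  refine ⟨N₀, by exact_mod_cast hN₀r, ?_⟩
  intro N hN d e hd he
  have d0 : 0 < d := by rw [hd]; exact div_pos hba hM0
  have hNr : (N₀ : ℝ) ≤ N := by exact_mod_cast hN
  have hN0 : (0 : ℝ) < N := by linarith only [hN₀, q1, q2, q3, hNr]
  have ep : 0 < e := by rw [he]; exact div_pos d0 hN0
  have hNe : d = N * e := by rw [he, mul_div_cancel₀ _ hN0.ne']
  have g1 : 8 / γ ≤ N := by linarith only [hN₀, q2, q3, hNr]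
  have g2 : 16 / (min x₀ x₁ * κ) ≤ N := by linarith only [hN₀, q1, q3, hNr]
  have g3 : 16 * vm / (min x₀ x₁ * κ) ≤ N := by linarith only [hN₀, q1, q2, hNr]
  have ed1 : e ≤ γ * d / 8 := by
    rw [div_le_iff₀ hγ] at g1
    have h1 := mul_le_mul_of_nonneg_right g1 ep.le
    rw [hNe]
    linarith only [h1]
  have ed2 : e ≤ min x₀ x₁ * κ * d / 16 := by
    rw [div_le_iff₀ (by positivity)] at g2
    have h1 := mul_le_mul_of_nonneg_right g2 ep.le
    rw [hNe]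
    linarith only [h1]
  have ed3 : vm * e ≤ min x₀ x₁ * κ * d / 16 := by
    rw [div_le_iff₀ (by positivity)] at g3
    have h1 := mul_le_mul_of_nonneg_right g3 ep.le
    rw [hNe]
    linarith only [h1]
  obtain ⟨τ₀, hτ₀⟩ : ∃ τ₀ : ℝ, τ₀ = min (γ * v₀ * d / 8) (min (min x₀ x₁ * κ * d / 32) d) :=
    ⟨_, rfl⟩
  have hτ0 : 0 < τ₀ := by
    rw [hτ₀]
    exact lt_min (by positivity) (lt_min (by positivity) d0)
  obtain ⟨J₀, hJ₀⟩ := exists_nat_gt (1 / e + 8 * (1 + 1 / v₀) / (γ * d) +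
    64 / (min x₀ x₁ * κ * d) + 5 / d)
  refine ⟨τ₀, hτ0, J₀, ?_⟩
  intro J hJ
  have hJr : (J₀ : ℝ) ≤ J := by exact_mod_cast hJ
  have p1 : 0 < 1 / e := by positivity
  have p2 : 0 < 8 * (1 + 1 / v₀) / (γ * d) := by positivity
  have p3 : 0 < 64 / (min x₀ x₁ * κ * d) := by positivity
  have p4 : 0 < 5 / d := by positivity
  have J1 : 1 ≤ e * J := by
    have h1 : 1 / e ≤ J := by linarith only [hJ₀, hJr, p2, p3, p4]
    rw [div_le_iff₀ ep] at h1
    linarith only [h1]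
  refine ⟨J1, ?_⟩
  intro τ h hτ hττ hhτ X hX1 hX2
  have t1 : τ₀ ≤ γ * v₀ * d / 8 := by rw [hτ₀]; exact min_le_left _ _
  have t2 : τ₀ ≤ min x₀ x₁ * κ * d / 32 := by
    rw [hτ₀]; exact (min_le_right _ _).trans (min_le_left _ _)
  have t3 : τ₀ ≤ d := by rw [hτ₀]; exact (min_le_right _ _).trans (min_le_right _ _)
  have hK : LevK x₀ x₁ γ C cR v₀ κ e₁ vm (3 + vm + e₁ + κ + x₁ * κ + cR * κ) d e τ h J X := by
    refine ⟨v0, v1, vC, hκ, e0, ?_, ?_, vm0.le, rfl, d0, ep, ed1, ed2, ed3, hτ, hττ.trans t1,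
      hττ.trans t2, hττ.trans t3, hhτ.trans t2, J1, ?_, ?_, ?_, hX1, hX2⟩
    · rw [he₁]; exact min_le_left _ _
    · rw [he₁]; exact min_le_right _ _
    · have h1 : 8 * (1 + 1 / v₀) / (γ * d) ≤ J := by linarith only [hJ₀, hJr, p1, p3, p4]
      rw [div_le_iff₀ (by positivity)] at h1
      linarith only [h1]
    · have h1 : 64 / (min x₀ x₁ * κ * d) ≤ J := by linarith only [hJ₀, hJr, p1, p2, p4]
      rw [div_le_iff₀ (by positivity)] at h1
      linarith only [h1]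
    · have h1 : 5 / d ≤ J := by linarith only [hJ₀, hJr, p1, p2, p3]
      rw [div_le_iff₀ d0] at h1
      linarith only [h1]
  refine ⟨⌈e * J + (X + 1 + (2 * e₁ * d + τ) * J) / v₀⌉₊, ?_⟩
  intro i hi hB
  have hPi : P i := by
    by_contra hcon
    exact hB (mem_filter.2 ⟨mem_range.2 hi, hcon⟩)
  rw [hP] at hPi
  obtain ⟨v, hv1, hv2, hA⟩ := hPi
  rw [← hd] at hA
  exact hK.cell hx₀ hx₁ hγ hγ1 hcR hr ha hra hNe hv1 hv2 hA

end Pool.PC
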