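import Pool.Agent.H15.PC.Fam
import Pool.Agent.H55.PC.Level

/-!
# From the description of one level to the level data

`Lvl F c n h B k` (the class numbers of the level `k` at the windows `i / n`) gives the level data
`Lev` on all windows, and the frames of two times. The mesh is `i / n = 0 + i * (1 / n)`.
-/

set_option autoImplicit false

namespace Pool.PC

open Finset Real
open Pool.Agent.H49.Ent Pool.Agent.H32.Dense Pool.STK Pool.KA Pool.KSAT Pool.K2S Pool.LK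
open Pool.UEG

variable {J : ℕ}

/-! ### Closed slopes -/

theorem kn_of_clo {F : Fam 2 J} {A : F.Ω → Prop} {a : F.Ω → ℝ} {w r : ℕ}
    (h : Clo F A a w r) : Kn F F.p A a w (2 / 2 ^ r) := by
  classical
  refine ⟨fun s => if hs : ∃ ω, On F A ω ∧ slam F w ω = s then a hs.choose else 0, ?_⟩
  intro ω hA hp
  have hs : ∃ ω', On F A ω' ∧ slam F w ω' = slam F w ω := ⟨ω, ⟨hp, hA⟩, rfl⟩
  simp only
  rw [dif_pos hs]
  exact h ω _ ⟨hp, hA⟩ hs.choose_spec.1 hs.choose_spec.2.symm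

theorem kn_one {F : Fam 2 J} {p : F.Ω → ℝ} {a : F.Ω → ℝ} {w : ℕ}
    (h : ∀ ω, 0 < p ω → |a ω| ≤ 1) : Kn F p (fun _ => True) a w 1 :=
  ⟨fun _ => 0, fun ω _ hω => by rw [sub_zero]; exact h ω hω⟩

/-- A slope which is known on an event has near pairs on this event. -/
theorem no_kn {F : Fam 2 J} {a : F.Ω → ℝ} {W : ℕ} {ρ h : ℝ} {E : F.Ω → Prop}
    (hE : 0 < Pe F.p E) (hh : h < 1)
    (hth : Pe (dbl (Pool.Agent.H49.Ent.cond F.p E True) (slam F W))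
      (fun v => |a v.1 - a v.2| ≤ ρ) ≤ h) : ¬ Kn F F.p E a W (ρ / 2) := by
  rintro ⟨φ, hφ⟩
  have hq := isLaw_cond F.isLaw hE
  obtain ⟨Q, hQ⟩ : ∃ Q, Q = dbl (Pool.Agent.H49.Ent.cond F.p E True) (slam F W) := ⟨_, rfl⟩
  have hQ0 : ∀ u, 0 ≤ Q u := fun u => by
    rw [hQ]
    exact glue_nonneg hq.nonneg hq.nonneg u
  have hQ1 : ∑ u, Q u = 1 := by
    rw [hQ]
    unfold dbl
    rw [sum_glue hq.nonneg (fun _ => rfl), hq.sum_one]
  rw [← hQ] at hth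
  have h1 : Pool.KAF.Pr Q Set.univ ≤ Pool.KAF.Pr Q {v : F.Ω × F.Ω | |a v.1 - a v.2| ≤ ρ} := by
    refine Uni.Pr_le_of hQ0 fun u hu _ => ?_
    rw [hQ] at hu
    obtain ⟨g1, g2, g3⟩ := (glue_pos_iff hq.nonneg hq.nonneg u).1 hu
    obtain ⟨p1, e1⟩ := (cond_pos_iff F.isLaw.nonneg E True _).1 g1
    obtain ⟨p2, e2⟩ := (cond_pos_iff F.isLaw.nonneg E True _).1 g2
    have k1 := abs_le.1 (hφ u.1 (of_eq_true e1) p1)
    have k2 := abs_le.1 (hφ u.2 (of_eq_true e2) p2)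
    rw [g3] at k1
    show |a u.1 - a u.2| ≤ ρ
    rw [abs_le]
    constructor <;> linarith
  have h2 : Pool.KAF.Pr Q Set.univ = 1 := by
    change Pe Q (fun u => u ∈ Set.univ) = 1
    rw [Pe_eq]
    simpa using hQ1
  have h3 : Pool.KAF.Pr Q {v : F.Ω × F.Ω | |a v.1 - a v.2| ≤ ρ} ≤ h := hth
  linarith

/-- Conditioning on the sure event. -/
theorem cond_true {Ω : Type} [Fintype Ω] {p : Ω → ℝ} (hp : IsLaw p) :
    Pool.Agent.H49.Ent.cond p (fun _ => True) True = p := by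
  funext ω
  unfold Pool.Agent.H49.Ent.cond law
  simp [hp.sum_one]

theorem Pe_true {Ω : Type} [Fintype Ω] {p : Ω → ℝ} (hp : IsLaw p) : Pe p (fun _ => True) = 1 := by
  rw [Pe_eq]
  simp [hp.sum_one]

/-! ### The mesh -/

theorem mwi_msh (J n i : ℕ) : mwi 0 (1 / (n : ℝ)) J i = msh J n i := by
  unfold mwi msh
  congr 1
  ring

theorem mpt (n i : ℕ) : (0 : ℝ) + i * (1 / (n : ℝ)) = i / n := by ring

theorem mwi_0 (e : ℝ) (J : ℕ) : mwi 0 e J 0 = 0 := by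
  unfold mwi
  simp

theorem mwi_n {n : ℕ} (hn : 1 ≤ n) (J : ℕ) : mwi 0 (1 / (n : ℝ)) J n = J := by
  have h1 : (n : ℝ) ≠ 0 := by
    have : (1 : ℝ) ≤ n := by exact_mod_cast hn
    linarith
  unfold mwi
  have e : ((0 : ℝ) + n * (1 / (n : ℝ))) * J = (J : ℝ) := by
    field_simp
    ring
  rw [e, Nat.floor_natCast]

theorem mshJ {n : ℕ} (hn : 1 ≤ n) (hJ : n ≤ J) : 1 ≤ 1 / (n : ℝ) * J := by
  have h1 : (0 : ℝ) < n := by exact_mod_cast hn
  have h2 : (n : ℝ) ≤ J := by exact_mod_cast hJ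
  rw [div_mul_eq_mul_div, one_mul, le_div_iff₀ h1, one_mul]
  exact h2

theorem msh1 {n : ℕ} (hn : 1 ≤ n) : (0 : ℝ) + n * (1 / (n : ℝ)) ≤ 1 := by
  have h1 : (n : ℝ) ≠ 0 := by
    have : (1 : ℝ) ≤ n := by exact_mod_cast hn
    linarith
  rw [zero_add, mul_one_div, div_self h1]

theorem mshe {n : ℕ} (hn : 1 ≤ n) : (0 : ℝ) < 1 / (n : ℝ) := by
  have h1 : (0 : ℝ) < n := by exact_mod_cast hn
  positivity

/-- The mesh point above the window `w`. -/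
noncomputable def mup (x e : ℝ) (J w : ℕ) : ℕ :=
  if w = mwi x e J (mix x e J w) then mix x e J w else mix x e J w + 1

theorem le_mwi_mup {x e : ℝ} (hx : 0 ≤ x) (he : 0 < e) (hJ : 1 ≤ e * J) (w : ℕ) :
    w ≤ mwi x e J (mup x e J w) := by
  unfold mup
  split_ifs with h
  · exact h.le
  · exact (lt_mwi_mix hx he hJ).le

theorem mup_le {x e : ℝ} (hx : 0 ≤ x) (he : 0 < e) (hJ : 1 ≤ e * J) {w i : ℕ}
    (h0 : mwi x e J 0 ≤ w) (hw : w ≤ mwi x e J i) : mup x e J w ≤ i := by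
  have hm : mix x e J w ≤ i := by
    have := mix_mono (x := x) (J := J) he hw
    rwa [mix_mwi hx he hJ] at this
  unfold mup
  split_ifs with h
  · exact hm
  · have h1 : mwi x e J (mix x e J w) < w := lt_of_le_of_ne (mwi_mix hx he hJ h0) (Ne.symm h)
    have h2 := (mwi_strict hx he hJ).lt_iff_lt.1 (h1.trans_le hw)
    omega

theorem mup_mwi {x e : ℝ} (hx : 0 ≤ x) (he : 0 < e) (hJ : 1 ≤ e * J) (i : ℕ) :
    mup x e J (mwi x e J i) = i := by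
  unfold mup
  rw [mix_mwi hx he hJ, if_pos rfl]

/-! ### The level data -/

/-- The level in the window `w`: the class number at the mesh point below, capped. -/
noncomputable def vpc (c : Nm) (cap h : ℝ) (n J : ℕ) : ℕ → ℕ :=
  mvp (fun y => min (c.rot y) cap) 0 (1 / (n : ℝ)) (2 * h) J

section lvl

variable {F : Fam 2 J} {c : Nm} {n k : ℕ} {h cap : ℝ} {B : ℕ → Bx F}

/-- **The level data.** -/
theorem lvl_lev (hL : Lvl F c n h B k) (hB : (B k).Ok (fun _ => True)) (hrm : Monotone c.rot)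
    (cap : ℝ) (hn : 1 ≤ n) (hJ : n ≤ J) (hh : 1 ≤ h * J) :
    ∃ a : ℕ → F.Ω → ℝ, Lev F F.p (B k).a (vpc c cap h n J) 0 J a := by
  have hal : ∀ ω, 0 < F.p ω → |(B k).a ω| ≤ 1 := fun ω hω => hB.sl ω ⟨hω, trivial⟩
  have key := cell_lev (x := 0) (e := 1 / (n : ℝ)) (τ := 2 * h) (N := n) (J := J) hal
    (fun y y' hy => min_le_min_right cap (hrm hy)) le_rfl (mshe hn) (msh1 hn) (mshJ hn hJ) ?_
  · rw [mwi_0, mwi_n hn] at key
    exact key
  · intro i hi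
    have hc := kn_of_clo (hL.cl i hi)
    rw [mwi_msh]
    rcases le_total ((min (c.rot (i / n)) cap - 2 * h) * J) 0 with h2 | h2
    · have e0 : mdi (fun y => min (c.rot y) cap) 0 (1 / (n : ℝ)) (2 * h) J i = 0 := by
        unfold mdi
        rw [mpt]
        exact Nat.floor_of_nonpos h2
      rw [e0, pow_zero, div_one]
      exact kn_one hal
    · refine hc.mono ?_
      have h3 : mdi (fun y => min (c.rot y) cap) 0 (1 / (n : ℝ)) (2 * h) J i + 1 ≤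
          ⌊(c.rot (i / n) - h) * J⌋₊ := by
        refine Nat.le_floor ?_
        have h4 : (mdi (fun y => min (c.rot y) cap) 0 (1 / (n : ℝ)) (2 * h) J i : ℝ) ≤
            (min (c.rot (i / n)) cap - 2 * h) * J := by
          unfold mdi
          rw [mpt]
          exact Nat.floor_le h2
        have h5 : (min (c.rot (i / n)) cap - 2 * h) * J ≤ (c.rot (i / n) - 2 * h) * J :=
          mul_le_mul_of_nonneg_right (sub_le_sub_right (min_le_left _ _) _) (Nat.cast_nonneg J)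
        push_cast
        linarith
      rw [div_le_div_iff₀ (by positivity) (by positivity), one_mul]
      calc (2 : ℝ) * 2 ^ mdi (fun y => min (c.rot y) cap) 0 (1 / (n : ℝ)) (2 * h) J i =
          2 ^ (mdi (fun y => min (c.rot y) cap) 0 (1 / (n : ℝ)) (2 * h) J i + 1) := by
            rw [pow_succ]; ring
        _ ≤ 2 ^ ⌊(c.rot (i / n) - h) * J⌋₊ := pow_le_pow_right₀ one_le_two h3

/-- The slopes are not closed to `rot + h`. -/
theorem lvl_no (hL : Lvl F c n h B k) (hh : 0 < h) (hh1 : h < 1) (hr0 : ∀ w, 0 ≤ c.rot w)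
    {i : ℕ} (hi : i ≤ n) (hr : c.rot (i / n) < c.n - c.q) (E : F.Ω → Prop)
    (hE : h ≤ Pe F.p E) :
    ¬ Kn F F.p E (B k).a (msh J n i) (2 ^ (-((c.rot (i / n) + h) * J + 2))) := by
  intro hK
  refine no_kn (hh.trans_le hE) hh1 (hL.th i hi hr E hE) (hK.mono ?_)
  have h0 : 0 ≤ (c.rot (i / n) + h) * J := mul_nonneg (by linarith [hr0 (i / n)])
    (Nat.cast_nonneg J)
  have h1 := Nat.ceil_lt_add_one h0
  have e1 : (1 : ℝ) / 2 ^ ⌈(c.rot (i / n) + h) * J⌉₊ / 2 =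
      2 ^ (-((⌈(c.rot (i / n) + h) * J⌉₊ : ℝ) + 1)) := by
    rw [neg_add, Real.rpow_add two_pos, Real.rpow_neg two_pos.le (⌈(c.rot (i / n) + h) * J⌉₊ : ℝ),
      Real.rpow_natCast, Real.rpow_neg two_pos.le, Real.rpow_one]
    field_simp
  rw [e1]
  exact Real.rpow_le_rpow_of_exponent_le one_le_two (by linarith)

/-- **The slopes of two times**, at a window `w` below the mesh point `i`. -/
theorem lvl_th (hL : Lvl F c n h B k) (hn : 1 ≤ n) (hh : 0 < h) (hh1 : h < 1)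
    (hr0 : ∀ w, 0 ≤ c.rot w) {ε₁ ϖ : ℝ} (hϖ : 0 < ϖ) (hε₁ : 0 < ε₁) (hc : h ≤ ε₁ * ϖ)
    {i : ℕ} (hi : i ≤ n) (hr : c.rot (i / n) < c.n - c.q) {w : ℕ} (hw : w ≤ msh J n i) {y : ℝ}
    (hy : (c.rot (i / n) + h) * J + 2 ≤ y) (E : F.Ω → Prop) (hE : ϖ ≤ Pe F.p E) :
    Pe (dbl (Pool.Agent.H49.Ent.cond F.p E True) (slam F w))
      (fun u => |(B k).a u.1 - (B k).a u.2| ≤ 2 ^ (-y)) ≤ ε₁ := by
  refine th_al F.isLaw hϖ hε₁ hc (fun B' hB' => lvl_no hL hh hh1 hr0 hi hr B' hB') hw ?_ hy E hE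
  rw [← mwi_msh]
  exact mwi_J (mle (mshe hn) (msh1 hn) hi)

/-- **The slopes of two times**, at all windows, at the precision `vp w + X`, on all events. -/
theorem lvl_pair (hL : Lvl F c n h B k) (hn : 1 ≤ n) (hJ : n ≤ J) (hh : 0 < h) (hh1 : h < 1)
    (hr0 : ∀ w, 0 ≤ c.rot w) (cap : ℝ) {ε₁ ϖ : ℝ} (hϖ : 0 < ϖ) (hε₁ : 0 < ε₁)
    (hc : h ≤ ε₁ * ϖ) {w : ℕ} (hw : w ≤ J)
    (hr : c.rot ((mup 0 (1 / (n : ℝ)) J w : ℕ) / n) < c.n - c.q) {X : ℕ}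
    (hX : (c.rot ((mup 0 (1 / (n : ℝ)) J w : ℕ) / n) -
      min (c.rot ((mix 0 (1 / (n : ℝ)) J w : ℕ) / n)) cap + 3 * h) * J + 4 ≤ X)
    (E : F.Ω → Prop) (hE : ϖ ≤ Pe F.p E) :
    Pe (dbl (Pool.Agent.H49.Ent.cond F.p E True) (slam F w))
      (fun u => |(B k).a u.1 - (B k).a u.2| ≤ 2 / 2 ^ (vpc c cap h n J w + X)) ≤ ε₁ := by
  have e1 : (2 : ℝ) / 2 ^ (vpc c cap h n J w + X) =
      2 ^ (-((vpc c cap h n J w : ℝ) + X - 1)) := by
    have e2 : -((vpc c cap h n J w : ℝ) + X - 1) =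
      1 - ((vpc c cap h n J w + X : ℕ) : ℝ) := by
      push_cast
      ring
    rw [e2, Real.rpow_sub two_pos, Real.rpow_one, Real.rpow_natCast]
  rw [e1]
  have hw1 : mwi 0 (1 / (n : ℝ)) J 0 ≤ w := by rw [mwi_0]; exact Nat.zero_le _
  have hw2 : w ≤ mwi 0 (1 / (n : ℝ)) J n := by rw [mwi_n hn]; exact hw
  refine lvl_th hL hn hh hh1 hr0 hϖ hε₁ hc (mup_le le_rfl (mshe hn) (mshJ hn hJ) hw1 hw2) hr ?_ ?_
    E hE
  · rw [← mwi_msh]
    exact le_mwi_mup le_rfl (mshe hn) (mshJ hn hJ) w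
  · have h2 : (min (c.rot ((mix 0 (1 / (n : ℝ)) J w : ℕ) / n)) cap - 2 * h) * J <
        (vpc c cap h n J w : ℝ) + 1 := by
      have h3 := Nat.lt_floor_add_one ((min (c.rot ((mix 0 (1 / (n : ℝ)) J w : ℕ) / n)) cap -
        2 * h) * J)
      have e3 : vpc c cap h n J w = ⌊(min (c.rot ((mix 0 (1 / (n : ℝ)) J w : ℕ) / n)) cap -
        2 * h) * J⌋₊ := by
        unfold vpc mvp mdi
        rw [mpt]
      rw [e3]
      exact h3
    linarith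

/-- The same for the law of the family. -/
theorem lvl_pair0 (hL : Lvl F c n h B k) (hn : 1 ≤ n) (hJ : n ≤ J) (hh : 0 < h) (hh1 : h < 1)
    (hr0 : ∀ w, 0 ≤ c.rot w) (cap : ℝ) {ε₁ : ℝ} (hε₁ : 0 < ε₁)
    (hc : h ≤ ε₁) {w : ℕ} (hw : w ≤ J)
    (hr : c.rot ((mup 0 (1 / (n : ℝ)) J w : ℕ) / n) < c.n - c.q) {X : ℕ}
    (hX : (c.rot ((mup 0 (1 / (n : ℝ)) J w : ℕ) / n) -
      min (c.rot ((mix 0 (1 / (n : ℝ)) J w : ℕ) / n)) cap + 3 * h) * J + 4 ≤ X) :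
    Pe (dbl F.p (slam F w))
      (fun u => |(B k).a u.1 - (B k).a u.2| ≤ 2 / 2 ^ (vpc c cap h n J w + X)) ≤ ε₁ := by
  have h1 := lvl_pair hL hn hJ hh hh1 hr0 cap (ϖ := 1) one_pos hε₁ (by rw [mul_one]; exact hc)
    hw hr hX (fun _ => True) (Pe_true F.isLaw).ge
  rwa [cond_true F.isLaw] at h1

/-- **The frames of two times** in a good cell, in the form of the rectangle theorems. -/
theorem lvl_cell (hL : Lvl F c n h B k) (hn : 1 ≤ n) (hJ : n ≤ J) (hh : 0 < h) (hh1 : h < 1)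
    (hr0 : ∀ w, 0 ≤ c.rot w) (hrm : Monotone c.rot) {cap : ℝ} {a : ℕ → F.Ω → ℝ}
    (hLev : Lev F F.p (B k).a (vpc c cap h n J) 0 J a) {ε₁ ϖ : ℝ} (hϖ : 0 < ϖ) (hε₁ : 0 < ε₁)
    (hc : h ≤ ε₁ * ϖ) {d x₀ x₁ γ C cR Cq : ℝ} {N X tt i D : ℕ} (hi : (i + 1) * N ≤ n)
    (hok : CellOk (fun y => min (c.rot y) cap) 0 d (1 / (n : ℝ)) (2 * h) (h + 2 / J) x₀ x₁ γ C cR
      Cq N J X tt i)
    (hcap : c.rot (((i + 1) * N : ℕ) / n) ≤ cap) (hr : c.rot (((i + 1) * N : ℕ) / n) < c.n - c.q)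
    (hD : vpc c cap h n J (msh J n ((i + 1) * N)) + x₁ * X + 1 ≤ D) :
    ∀ w, msh J n (i * N) ≤ w → w ≤ msh J n ((i + 1) * N) → ∀ E : F.Ω → Prop, ϖ ≤ Pe F.p E →
      Pool.KAF.Pr (dbl (Pool.Agent.H49.Ent.cond F.p E True) (slam F w))
        {v | |sl2 (vpc c cap h n J w) D (a w) (B k).a v.2 -
          sl2 (vpc c cap h n J w) D (a w) (B k).a v.1| < (2 : ℝ) ^ (-(x₁ * X))} ≤ ε₁ := by
  have hJ0 : (0 : ℝ) < J := by
    have h1 : (1 : ℝ) ≤ n := by exact_mod_cast hn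
    have h2 : (n : ℝ) ≤ J := by exact_mod_cast hJ
    linarith
  have hn0 : (0 : ℝ) < n := by exact_mod_cast hn
  have hmx : min x₀ x₁ * X ≤ x₁ * X :=
    mul_le_mul_of_nonneg_right (min_le_right _ _) (Nat.cast_nonneg X)
  have hle : ∀ j, j ≤ (i + 1) * N → c.rot (j / n) ≤ c.rot (((i + 1) * N : ℕ) / n) := by
    intro j hj
    have h1 : (j : ℝ) ≤ ((i + 1) * N : ℕ) := by exact_mod_cast hj
    exact hrm (div_le_div_of_nonneg_right h1 hn0.le)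
  rw [← mwi_msh, ← mwi_msh] at *
  refine cell_th F.isLaw (h := h + 2 / J) (N := n)
    (fun y y' hy => min_le_min_right cap (hrm hy)) le_rfl (mshe hn)
    (msh1 hn) (mshJ hn hJ) hi (by rw [mwi_0, mwi_n hn]; exact hLev) hϖ hε₁ hc ?_ ?_ ?_ ?_
  · intro j _ hj E hE
    have h1 := lvl_no hL hh hh1 hr0 (hj.trans hi) ((hle j hj).trans_lt hr) E hE
    rw [mpt, min_eq_left ((hle j hj).trans hcap), mwi_msh]
    have e1 : (c.rot (j / n) + (h + 2 / J)) * J = (c.rot (j / n) + h) * J + 2 := by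
      field_simp
      ring
    rw [e1]
    exact h1
  · intro j h0 h1
    exact (hok.inn j h0 h1).trans hmx
  · exact hok.one.trans hmx
  · have e1 : vpc c cap h n J (mwi 0 (1 / (n : ℝ)) J ((i + 1) * N)) =
        mdi (fun y => min (c.rot y) cap) 0 (1 / (n : ℝ)) (2 * h) J ((i + 1) * N) := by
      unfold vpc mvp
      rw [mix_mwi le_rfl (mshe hn) (mshJ hn hJ)]
    rw [e1] at hD
    exact hD

end lvl

/-! ### The frames as vectors -/

/-- The frame as a vector. -/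
def zv {F : Fam 2 J} (i0 : Fin 2) (a : F.Ω → ℝ) (ω : F.Ω) (j : Fin 2) : ℝ :=
  if j = i0 then 0 else a ω

section zv

variable {F : Fam 2 J} {p : F.Ω → ℝ} {al : F.Ω → ℝ} {l : ℕ → ℕ} {W₀ W₁ : ℕ} {a : ℕ → F.Ω → ℝ}
  {i0 : Fin 2}

theorem zv_i0 (i0 : Fin 2) (b : F.Ω → ℝ) (ω : F.Ω) : zv i0 b ω i0 = 0 := if_pos rfl

theorem zv_ne {i0 j : Fin 2} (h : j ≠ i0) (b : F.Ω → ℝ) (ω : F.Ω) : zv i0 b ω j = b ω := if_neg h

theorem oth_ne (i0 : Fin 2) : oth i0 ≠ i0 := by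
  unfold oth
  fin_cases i0 <;> simp

theorem Lev.zgrid (h : Lev F p al l W₀ W₁ a) (i0 : Fin 2) (w : ℕ) (ω : F.Ω) (j : Fin 2) :
    ∃ n : ℤ, zv i0 (a w) ω j = n / 2 ^ l w := by
  unfold zv
  split_ifs
  · exact ⟨0, by simp⟩
  · exact h.grid w ω

theorem Lev.zbd (h : Lev F p al l W₀ W₁ a) (i0 : Fin 2) (w : ℕ) (ω : F.Ω) (j : Fin 2) :
    |zv i0 (a w) ω j| ≤ 1 := by
  unfold zv
  split_ifs
  · simp
  · exact h.bd w ω

theorem Lev.zcl (h : Lev F p al l W₀ W₁ a) (i0 : Fin 2) {w : ℕ} (h0 : W₀ ≤ w) (h1 : w ≤ W₁)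
    (q : F.Ω → ℝ) : Det q (slam F w) (zv i0 (a w)) := by
  intro ω ω' _ _ hs
  obtain ⟨ψ, hψ⟩ := h.cl w h0 h1
  funext j
  unfold zv
  rw [hψ, hψ, hs]

theorem Lev.znear (h : Lev F p al l W₀ W₁ a) {i0 : Fin 2} {w : ℕ} (h0 : W₀ ≤ w) (h1 : w ≤ W₁)
    {ω : F.Ω} (hω : 0 < p ω) {j : Fin 2} (hj : j ≠ i0) :
    |al ω - zv i0 (a w) ω j| ≤ 2 / 2 ^ l w := by
  rw [zv_ne hj]
  exact h.near w h0 h1 ω hω

/-- The closed frame of a box. -/
theorem Lev.cld {B : Bx F} (h : Lev F F.p B.a l W₀ W₁ a) {w : ℕ} (h0 : W₀ ≤ w) (h1 : w ≤ W₁) :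
    Cld F B w (l w) (zv B.i0 (a w)) where
  det := h.zcl B.i0 h0 h1 F.p
  grid := h.zgrid B.i0 w
  z0 := zv_i0 B.i0 (a w)
  le1 := h.zbd B.i0 w
  near := fun ω hω => (h.znear h0 h1 hω (oth_ne B.i0)).trans
    (div_le_div_of_nonneg_right (by norm_num) (by positivity))

end zv

end Pool.PC
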